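import Pool.Agent.Helper54.LK.KU

/-!
# Bounded exponents of the minimal discriminant, over number fields (sequence form)
-/

namespace Pool.Agent.Helper54.LK

open Real Filter Topology NumberField Pool.Agent.Helper42.LS Pool.Agent.Helper42.LK
open Pool.Agent.Helper54.LS (ST_T2r)

/-- KB : all exponents of the minimal discriminant at most `E` -/
def ST_KB : Prop := ∀ (K : Type) [Field K] [NumberField K], ∃ c : ℝ, 0 < c ∧
  ∀ A B : K, dsc A B ≠ 0 → ∀ E : ℝ, 1 ≤ E →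
  (∀ v : FinitePlace K, dl (fun x : K => v x) A B ≤ E * lq v) →
  ∀ (x y : ℕ → K) (e : ℝ), GSeq (0 : K) A B x y → IsCanK x e →
  c * ((1 + LR A B) / E ^ 3 + (1 + HK A B) / E ^ 4) ≤ e

/-- `log |N D_min| ≤ E log rad` -/
lemma LD_le (hDF : ST_KDF) (K : Type) [Field K] [NumberField K] (A B : K) (hD : dsc A B ≠ 0)
    (E : ℝ) (hE : ∀ v : FinitePlace K, dl (fun x : K => v x) A B ≤ E * lq v) :
    LD A B ≤ E * LR A B := by
  classical
  obtain ⟨hfin, hloc, -⟩ := hDF K A B hD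
  have hz : ∀ v : FinitePlace K, v ∉ hfin.toFinset → dl (fun x : K => v x) A B = 0 := by
    intro v hv
    rw [Set.Finite.mem_toFinset, Set.mem_ofPred_eq, not_not] at hv
    obtain ⟨h1, h2, h3, h4, h5⟩ := hv
    exact (hloc v).2.2.2.2 h1 h2 h3 h4 h5
  unfold LD LR
  rw [finsum_eq_sum_of_support_subset (s := hfin.toFinset) _ (by
      intro v hv
      by_contra h
      exact hv (hz v h)),
    finsum_eq_sum_of_support_subset (s := hfin.toFinset) _ (by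
      intro v hv
      by_contra h
      apply hv
      show (if 0 < dl (fun x : K => v x) A B then lq v else 0) = 0
      rw [if_neg (by rw [hz v h]; exact lt_irrefl _)]), Finset.mul_sum]
  apply Finset.sum_le_sum
  intro v _
  split_ifs with h
  · exact hE v
  · rw [mul_zero]; exact not_lt.1 h

/-- arithmetic: from `N / E ^ 3` to the final form -/
lemma fin_arith {c e L N E : ℝ} (hc : 0 < c) (hE : 1 ≤ E) (hL0 : 0 ≤ L) (hLN : L ≤ N)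
    (h : c * (N / E ^ 3) ≤ e) : c / 2 * (L / E ^ 3 + N / E ^ 4) ≤ e := by
  have h1 : L / E ^ 3 ≤ N / E ^ 3 := by gcongr
  have h2 : N / E ^ 4 ≤ N / E ^ 3 := by
    have : E ^ 3 ≤ E ^ 4 := pow_le_pow_right₀ hE (by norm_num)
    have hN : 0 ≤ N := hL0.trans hLN
    gcongr
  calc c / 2 * (L / E ^ 3 + N / E ^ 4) ≤ c / 2 * (N / E ^ 3 + N / E ^ 3) := by gcongr
    _ = c * (N / E ^ 3) := by ring
    _ ≤ e := h

/-- case (i): the archimedean places are heavy -/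
lemma kb_arch (hCK : ST_CK) {C₀ H L Rd : ℝ} {m : ℕ} {e : ℝ} (hC₀ : 0 ≤ C₀)
    {V P : Finset ℕ} {w t : ℕ → ℝ} {n : ℕ → ℕ} (h : MSum C₀ H L Rd m e V P w t n)
    {κ : ℝ} (hκ : 0 < κ)
    (h0 : 160 * (C₀ + 1) ^ 2 ≤ ∑ v ∈ V \ P, w v)
    (h1 : κ * ∑ v ∈ V, w v ≤ ∑ v ∈ V \ P, w v) :
    (κ / (C₀ + 1)) ^ 3 * (∑ v ∈ V, w v) / 5184000 ≤ e := by
  set W := ∑ v ∈ V, w v with hW
  set w0 := ∑ v ∈ V \ P, w v with hw0
  have hC1 : 1 ≤ C₀ + 1 := by linarith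
  have hcard := h.card
  have hw0pos : 0 < w0 := lt_of_lt_of_le (by positivity) h0
  have hne : (V \ P).Nonempty := by
    rw [Finset.nonempty_iff_ne_empty]
    intro h2
    rw [hw0, h2, Finset.sum_empty] at hw0pos
    exact lt_irrefl _ hw0pos
  obtain ⟨v₀, hv₀, hmax⟩ : ∃ v₀ ∈ V \ P, w0 / (C₀ + 1) ≤ w v₀ := by
    by_contra hcon
    push Not at hcon
    have h2 : ∑ v ∈ V \ P, w v < ∑ _v ∈ V \ P, w0 / (C₀ + 1) :=
      Finset.sum_lt_sum_of_nonempty hne hcon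
    rw [Finset.sum_const, nsmul_eq_mul, ← hw0] at h2
    have h3 : ((V \ P).card : ℝ) * (w0 / (C₀ + 1)) ≤ (C₀ + 1) * (w0 / (C₀ + 1)) :=
      mul_le_mul_of_nonneg_right (by linarith) (by positivity)
    have h4 : (C₀ + 1) * (w0 / (C₀ + 1)) = w0 := by field_simp
    linarith
  have hWpos : 0 < W := by
    have h2 : w0 ≤ W := Finset.sum_le_sum_of_subset_of_nonneg Finset.sdiff_subset
      (fun v hv _ => h.nonneg v hv)
    linarith
  have hbig : 160 * C₀ ≤ w v₀ := by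
    refine le_trans ?_ hmax
    rw [le_div_iff₀ (by positivity)]
    nlinarith
  have hpos : 0 < w v₀ := lt_of_lt_of_le (by positivity) hmax
  have h5 := place_smallK hCK h (Finset.mem_sdiff.1 hv₀).1 hbig hpos
  rw [← hW] at h5
  have h6 : κ / (C₀ + 1) * W ≤ w v₀ := by
    refine le_trans ?_ hmax
    rw [div_mul_eq_mul_div]
    gcongr
  have h7 : (κ / (C₀ + 1) * W) ^ 3 ≤ 5184000 * e * W ^ 2 :=
    (pow_le_pow_left₀ (by positivity) h6 3).trans h5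
  rw [mul_pow] at h7
  have h8 : W ^ 2 * ((κ / (C₀ + 1)) ^ 3 * W) ≤ W ^ 2 * (5184000 * e) := by
    calc W ^ 2 * ((κ / (C₀ + 1)) ^ 3 * W) = (κ / (C₀ + 1)) ^ 3 * W ^ 3 := by ring
      _ ≤ 5184000 * e * W ^ 2 := h7
      _ = _ := by ring
  have h9 := le_of_mul_le_mul_left h8 (by positivity)
  rw [div_le_iff₀ (by norm_num)]
  linarith

/-- case (i), arithmetic -/
lemma kb_i_arith {w0 F W D L E C₀ δ : ℝ} (hE : 1 ≤ E) (hδ : 0 < δ)
    (hw0 : 0 ≤ w0) (hC : C₀ ≤ w0) (h1 : δ * L ≤ w0) (hD : D ≤ E * L) (hF : F ≤ D + C₀)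
    (hs : w0 + F = W) :
    1 / (E * (2 + 1 / δ)) * W ≤ w0 := by
  have hE0 : 0 < E := by linarith
  rw [div_mul_eq_mul_div, one_mul, div_le_iff₀ (by positivity)]
  have h2 : L ≤ w0 / δ := by rw [le_div_iff₀ hδ]; linarith
  have h3 : E * L ≤ E * (w0 / δ) := mul_le_mul_of_nonneg_left h2 hE0.le
  have h4 : w0 * 1 ≤ w0 * E := mul_le_mul_of_nonneg_left hE hw0
  calc W = w0 + F := hs.symm
    _ ≤ w0 + (D + C₀) := by linarith
    _ ≤ w0 * E + (E * (w0 / δ) + w0 * E) := by linarith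
    _ = w0 * (E * (2 + 1 / δ)) := by ring

/-- case (iii), the number of finite places -/
lemma kb_iii_card {C₃ C₀ C₅ C₄ l L E c : ℝ} (hl : 0 < l) (hC₀ : 0 ≤ C₀) (hE : 1 ≤ E)
    (hC₃ : 0 ≤ C₃) (hC₅ : C₅ = C₃ * (1 + C₀)) (hC₄ : C₄ = (C₅ + C₀) / l + 1)
    (h : L < C₃ * (E + C₀)) (hc : c * l ≤ L + C₀) : L ≤ C₅ * E ∧ c ≤ C₄ * E := by
  have hAE : E + C₀ ≤ (1 + C₀) * E := by nlinarith
  have hL5 : L ≤ C₅ * E := by
    calc L ≤ C₃ * (E + C₀) := h.le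
      _ ≤ C₃ * ((1 + C₀) * E) := mul_le_mul_of_nonneg_left hAE hC₃
      _ = C₅ * E := by rw [hC₅]; ring
  refine ⟨hL5, ?_⟩
  have h1 : c ≤ (C₅ * E + C₀) / l := by
    rw [le_div_iff₀ hl]; linarith
  refine h1.trans ?_
  rw [hC₄, div_le_iff₀ hl]
  have h2 : ((C₅ + C₀) / l + 1) * E * l = (C₅ + C₀) * E + E * l := by field_simp
  rw [h2]
  have h3 : C₀ * 1 ≤ C₀ * E := mul_le_mul_of_nonneg_left hE hC₀
  have h4 : 0 ≤ E * l := by positivity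
  linarith

/-- case (ii), lower bound for `∑ w / n²` -/
lemma kb_ii_G {C₀ H D L : ℝ} {m : ℕ} {e E : ℝ} (hC₀ : 0 ≤ C₀)
    {V P : Finset ℕ} {w t : ℕ → ℝ} {n : ℕ → ℕ} (hM : MSum C₀ H D L m e V P w t n)
    (hA1 : 1 ≤ E + C₀) (hexp : ∀ v ∈ P, (n v : ℝ) ≤ E + C₀) :
    L / (E + C₀) - C₀ ≤ ∑ v ∈ P, w v / (n v : ℝ) ^ 2 := by
  have h1 : (L - C₀) / (E + C₀) ≤ ∑ v ∈ P, w v / (n v : ℝ) ^ 2 := by
    rw [div_le_iff₀ (by linarith)]
    refine hM.rad.trans ?_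
    rw [Finset.sum_mul]
    apply Finset.sum_le_sum
    intro v hv
    have h2 : (1 : ℝ) ≤ n v := by exact_mod_cast hM.npos v hv
    have h3 := hexp v hv
    have h4 := hM.nonneg v (hM.sub hv)
    have h5 : (n v : ℝ) ≠ 0 := by positivity
    calc w v / n v = w v / (n v : ℝ) ^ 2 * n v := by field_simp
      _ ≤ w v / (n v : ℝ) ^ 2 * (E + C₀) := mul_le_mul_of_nonneg_left h3 (by positivity)
  have h2 : (L - C₀) / (E + C₀) = L / (E + C₀) - C₀ / (E + C₀) := by ring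
  have h3 : C₀ / (E + C₀) ≤ C₀ := div_le_self hC₀ hA1
  linarith

/-- case (ii), the condition of T2 -/
lemma kb_ii_cond {C₁ ws C₀ δ L X w0 A : ℝ} (hC₁ : 0 < C₁) (hA : 1 ≤ A) (hws : 0 ≤ ws)
    (hδ : δ = 1 / (4 * (C₁ + 1))) (hX : X = L / A) (hX0 : 0 ≤ X) (hw : w0 ≤ δ * L + ws)
    (hb : C₁ * (1 + ws) + C₀ ≤ X / 2 + X / 4) :
    C₁ * (1 + w0 / A) ≤ X - C₀ := by
  have hA0 : 0 < A := by linarith
  have h1 : w0 / A ≤ δ * X + ws := by
    rw [div_le_iff₀ hA0]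
    have h2 : (δ * X + ws) * A = δ * L + ws * A := by
      rw [hX]; field_simp
    rw [h2]
    have h3 : ws * 1 ≤ ws * A := mul_le_mul_of_nonneg_left hA hws
    linarith
  have h2 : C₁ * (δ * X) ≤ X / 4 := by
    have h3 : C₁ * δ ≤ 1 / 4 := by
      rw [hδ, mul_one_div, div_le_div_iff₀ (by positivity) (by norm_num)]
      linarith
    calc C₁ * (δ * X) = (C₁ * δ) * X := by ring
      _ ≤ 1 / 4 * X := mul_le_mul_of_nonneg_right h3 hX0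
      _ = _ := by ring
  have h3 : C₁ * (1 + w0 / A) ≤ C₁ * (1 + (δ * X + ws)) :=
    mul_le_mul_of_nonneg_left (by linarith) hC₁.le
  have h4 : C₁ * (1 + (δ * X + ws)) = C₁ * (1 + ws) + C₁ * (δ * X) := by ring
  linarith

/-- case (ii), conclusion -/
lemma kb_ii_concl {c₂ C₀ L E e G N W H ws D w0 F C₃ δ : ℝ} (hc₂ : 0 < c₂) (hC₀ : 0 ≤ C₀)
    (hE : 1 ≤ E) (hL0 : 0 ≤ L) (hδ1 : δ ≤ 1)
    (hG : L / (E + C₀) / 2 ≤ G) (hfin : c₂ * G ≤ 144 * e * (E + C₀) ^ 2)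
    (hC₃ : 1 + ws + C₀ ≤ C₃) (hws : 0 ≤ ws)
    (hL1 : C₃ ≤ L) (hN : N - 1 ≤ 2 * H) (hH : H ≤ W + C₀) (hW : w0 + F = W)
    (hw0 : w0 ≤ δ * L + ws) (hF : F ≤ D + C₀) (hD : D ≤ E * L) :
    c₂ / (288 * (1 + C₀) ^ 3) / 16 * ((1 + L) / E ^ 3 + N / E ^ 4) ≤ e := by
  have hE0 : 0 < E := by linarith
  have hA0 : 0 < E + C₀ := by linarith
  have hAE : E + C₀ ≤ (1 + C₀) * E := by nlinarith
  have h1 : c₂ * (L / (E + C₀) / 2) ≤ 144 * e * (E + C₀) ^ 2 :=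
    (mul_le_mul_of_nonneg_left hG hc₂.le).trans hfin
  have h2 : c₂ / (288 * (1 + C₀) ^ 3) * (L / E ^ 3) ≤ e := by
    have h3 : c₂ * (L / (E + C₀) / 2) / (144 * (E + C₀) ^ 2) ≤ e := by
      rw [div_le_iff₀ (by positivity)]
      linarith
    refine le_trans ?_ h3
    have h4 : (E + C₀) ^ 3 ≤ ((1 + C₀) * E) ^ 3 := pow_le_pow_left₀ hA0.le hAE 3
    calc c₂ / (288 * (1 + C₀) ^ 3) * (L / E ^ 3) = c₂ * L / (288 * ((1 + C₀) * E) ^ 3) := by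
          field_simp
      _ ≤ c₂ * L / (288 * (E + C₀) ^ 3) := by gcongr
      _ = c₂ * (L / (E + C₀) / 2) / (144 * (E + C₀) ^ 2) := by field_simp; ring
  have hLE : 1 * L ≤ E * L := mul_le_mul_of_nonneg_right hE hL0
  have hδL : δ * L ≤ 1 * L := mul_le_mul_of_nonneg_right hδ1 hL0
  have hNL : N ≤ 8 * (E * L) := by linarith
  have h3 : (1 + L) / E ^ 3 + N / E ^ 4 ≤ 10 * (L / E ^ 3) := by
    have h4 : (1 + L) / E ^ 3 ≤ 2 * (L / E ^ 3) := by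
      rw [← mul_div_assoc]
      apply div_le_div_of_nonneg_right _ (by positivity)
      linarith
    have h5 : N / E ^ 4 ≤ 8 * (L / E ^ 3) := by
      calc N / E ^ 4 ≤ 8 * (E * L) / E ^ 4 := div_le_div_of_nonneg_right hNL (by positivity)
        _ = 8 * (L / E ^ 3) := by field_simp
    linarith
  have h6 : 0 ≤ c₂ / (288 * (1 + C₀) ^ 3) * (L / E ^ 3) := by positivity
  calc c₂ / (288 * (1 + C₀) ^ 3) / 16 * ((1 + L) / E ^ 3 + N / E ^ 4)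
      ≤ c₂ / (288 * (1 + C₀) ^ 3) / 16 * (10 * (L / E ^ 3)) :=
        mul_le_mul_of_nonneg_left h3 (by positivity)
    _ = 10 / 16 * (c₂ / (288 * (1 + C₀) ^ 3) * (L / E ^ 3)) := by ring
    _ ≤ 1 * (c₂ / (288 * (1 + C₀) ^ 3) * (L / E ^ 3)) :=
        mul_le_mul_of_nonneg_right (by norm_num) h6
    _ ≤ e := by rw [one_mul]; exact h2

/-- large `E`: from the unconditional bound -/
lemma kb_small {cU C' N E e : ℝ} (hcU : 0 < cU) (hC' : 0 < C') (hN : 1 ≤ N) (hE : 1 ≤ E)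
    (h : N ≤ C' * E) (hU : cU * N ^ (-(19 / 29 : ℝ)) ≤ e) :
    cU / C' ^ 3 * (N / E ^ 3) ≤ e := by
  refine le_trans ?_ hU
  have h1 : N ^ (-(19 / 29 : ℝ)) ≥ N ^ (-2 : ℝ) :=
    Real.rpow_le_rpow_of_exponent_le hN (by norm_num)
  have h2 : N ^ (-2 : ℝ) = 1 / N ^ 2 := by
    rw [Real.rpow_neg (by linarith), one_div]
    norm_num
  have h3 : cU / C' ^ 3 * (N / E ^ 3) ≤ cU * (1 / N ^ 2) := by
    have h4 : N ^ 3 ≤ (C' * E) ^ 3 := pow_le_pow_left₀ (by linarith) h 3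
    have hE0 : 0 < E := by linarith
    have hN0 : 0 < N := by linarith
    rw [div_mul_div_comm, mul_one_div, div_le_div_iff₀ (by positivity) (by positivity)]
    calc cU * N * N ^ 2 = cU * N ^ 3 := by ring
      _ ≤ cU * (C' * E) ^ 3 := mul_le_mul_of_nonneg_left h4 hcU.le
      _ = cU * (C' ^ 3 * E ^ 3) := by ring
  rw [← h2] at h3
  exact h3.trans (mul_le_mul_of_nonneg_left h1 hcU.le)

/-- the core -/
theorem kb_core (hCK : ST_CK) (hT2 : ST_T2r) (C₀ : ℝ) (hC₀ : 0 ≤ C₀) :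
    ∃ c C' : ℝ, 0 < c ∧ 1 ≤ C' ∧ ∀ {H D L : ℝ} {m : ℕ} {e : ℝ}
      {V P : Finset ℕ} {w t : ℕ → ℝ} {n : ℕ → ℕ}, MSum C₀ H D L m e V P w t n →
      ∀ E N : ℝ, 0 ≤ e → 0 ≤ L → L ≤ D → D ≤ H → 1 ≤ E → D ≤ E * L →
      (∀ v ∈ P, (n v : ℝ) ≤ E + C₀) → H ≤ N - 1 → N - 1 ≤ 2 * H → C' * E < N →
      c * ((1 + L) / E ^ 3 + N / E ^ 4) ≤ e := by
  obtain ⟨r, hr⟩ : ∃ r : ℕ, C₀ ≤ r := exists_nat_ge _
  obtain ⟨c₂, C₁, hc₂, hC₁, hT2⟩ := hT2 (C₀ + 1) r (by linarith)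
  obtain ⟨l, hl⟩ : ∃ l : ℝ, l = Real.log 2 := ⟨_, rfl⟩
  have hl2 : 0 < l := by rw [hl]; exact Real.log_pos (by norm_num)
  have hC1 : 1 ≤ C₀ + 1 := by linarith
  -- constants
  obtain ⟨ws, hws⟩ : ∃ ws : ℝ, ws = 160 * (C₀ + 1) ^ 2 := ⟨_, rfl⟩
  have hws1 : C₀ + 1 ≤ ws := by rw [hws]; nlinarith
  obtain ⟨δ, hδ⟩ : ∃ δ : ℝ, δ = 1 / (4 * (C₁ + 1)) := ⟨_, rfl⟩
  have hδ0 : 0 < δ := by rw [hδ]; positivity
  have hδ1 : δ ≤ 1 := by
    rw [hδ, div_le_one (by positivity)]; linarith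
  obtain ⟨C₃, hC₃⟩ : ∃ C₃ : ℝ, C₃ = 4 * (C₁ + 1) * (1 + ws + C₀) := ⟨_, rfl⟩
  have hT : 0 ≤ 1 + ws + C₀ := by linarith
  have hC₃1 : 1 + ws + C₀ ≤ C₃ := by rw [hC₃]; nlinarith
  have hC₃b : C₁ * (1 + ws) + C₀ ≤ C₃ / 2 + C₃ / 4 := by
    have h1 : C₁ * (1 + ws) ≤ C₁ * (1 + ws + C₀) :=
      mul_le_mul_of_nonneg_left (by linarith) hC₁.le
    rw [hC₃]
    linarith
  have hC₃c : 2 * C₀ ≤ C₃ := by
    have h1 : 0 ≤ C₁ * (1 + ws + C₀) := by positivity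
    rw [hC₃]; linarith
  obtain ⟨C₅, hC₅⟩ : ∃ C₅ : ℝ, C₅ = C₃ * (1 + C₀) := ⟨_, rfl⟩
  have hC₃0 : 0 ≤ C₃ := by linarith
  have hC₅0 : 0 ≤ C₅ := by rw [hC₅]; positivity
  obtain ⟨C₄, hC₄⟩ : ∃ C₄ : ℝ, C₄ = (C₅ + C₀) / l + 1 := ⟨_, rfl⟩
  have hC₄1 : 1 ≤ C₄ := by
    rw [hC₄]
    have : 0 ≤ (C₅ + C₀) / l := by positivity
    linarith
  obtain ⟨C', hC'⟩ : ∃ C' : ℝ, C' = 4 * (320 * C₀ * C₄ + 2 * (C₅ + ws) + C₀ + 1) := ⟨_, rfl⟩
  have hCC : 0 ≤ 320 * C₀ * C₄ := by positivity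
  have hws0 : 0 ≤ ws := by linarith
  -- the three constants
  obtain ⟨m2, hm2⟩ : ∃ m2 : ℝ, m2 = (1 / (2 + 1 / δ) / (C₀ + 1)) ^ 3 / 5184000 / 4 := ⟨_, rfl⟩
  obtain ⟨m3, hm3⟩ : ∃ m3 : ℝ, m3 = 1 / (C₄ ^ 3 * 41472000) / 4 := ⟨_, rfl⟩
  obtain ⟨m4, hm4⟩ : ∃ m4 : ℝ, m4 = c₂ / (288 * (1 + C₀) ^ 3) / 16 := ⟨_, rfl⟩
  have hm2p : 0 < m2 := by rw [hm2]; positivity
  have hm3p : 0 < m3 := by rw [hm3]; positivity
  have hm4p : 0 < m4 := by rw [hm4]; positivity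
  refine ⟨min (m2 / 2) (min (m3 / 2) m4), C',
    lt_min (by linarith) (lt_min (by linarith) hm4p), by rw [hC']; linarith, ?_⟩
  intro H D L m e V P w t n hM E N he0 hL0 hLD hDH hE hDE hexp hHN hNH hbig
  have hE0 : 0 < E := by linarith
  have hN1 : 1 ≤ N := by linarith
  have hLN : 1 + L ≤ N := by linarith
  have hred : ∀ c : ℝ, 0 < c → min (m2 / 2) (min (m3 / 2) m4) ≤ c / 2 →
      c * (N / E ^ 3) ≤ e →
      min (m2 / 2) (min (m3 / 2) m4) * ((1 + L) / E ^ 3 + N / E ^ 4) ≤ e := by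
    intro c hc h1 h2
    refine le_trans (mul_le_mul_of_nonneg_right h1 (by positivity)) ?_
    exact fin_arith hc hE (by linarith) hLN h2
  obtain ⟨W, hW⟩ : ∃ W : ℝ, W = ∑ v ∈ V, w v := ⟨_, rfl⟩
  have htot := abs_le.1 hM.total
  have htotf := abs_le.1 hM.totalf
  rw [← hW] at htot
  have hC'E : C' * 1 ≤ C' * E := mul_le_mul_of_nonneg_left hE (by rw [hC']; linarith)
  have hC'C : 4 * (C₀ + 1) ≤ C' := by rw [hC']; linarith
  have hWN : N / 4 ≤ W := by linarith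
  have hWpos : 0 < W := by linarith
  obtain ⟨w0, hw0⟩ : ∃ w0 : ℝ, w0 = ∑ v ∈ V \ P, w v := ⟨_, rfl⟩
  obtain ⟨F, hF⟩ : ∃ F : ℝ, F = ∑ v ∈ P, w v := ⟨_, rfl⟩
  rw [← hF] at htotf
  have hsplit : w0 + F = W := by rw [hW, hw0, hF]; exact Finset.sum_sdiff hM.sub
  have hw0n : 0 ≤ w0 := by
    rw [hw0]; exact Finset.sum_nonneg (fun v hv => hM.nonneg v (Finset.mem_sdiff.1 hv).1)
  by_cases hc1 : ws ≤ w0 ∧ δ * L ≤ w0
  · -- case (i)
    obtain ⟨hc1, hc1'⟩ := hc1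
    apply hred m2 hm2p (min_le_left _ _)
    have hWw := kb_i_arith (C₀ := C₀) hE hδ0 hw0n (by linarith) hc1' hDE
      (by linarith) hsplit
    have h1 := kb_arch hCK hC₀ hM (κ := 1 / (E * (2 + 1 / δ))) (by positivity)
      (by rw [← hw0, ← hws]; exact hc1) (by rw [← hw0, ← hW]; exact hWw)
    rw [← hW] at h1
    refine le_trans ?_ h1
    rw [hm2]
    have h5 : 0 < (2 + 1 / δ) := by positivity
    have h6 : 0 < C₀ + 1 := by linarith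
    generalize 2 + 1 / δ = X at h5 ⊢
    generalize C₀ + 1 = Y at h6 ⊢
    calc (1 / X / Y) ^ 3 / 5184000 / 4 * (N / E ^ 3)
        = (1 / (E * X) / Y) ^ 3 * (N / 4) / 5184000 := by field_simp
      _ ≤ (1 / (E * X) / Y) ^ 3 * W / 5184000 := by gcongr
  have hw0le : w0 ≤ δ * L + ws := by
    by_contra hcon
    push Not at hcon
    apply hc1
    have h1 : 0 ≤ δ * L := by positivity
    exact ⟨by linarith, by linarith⟩
  have hA1 : 1 ≤ E + C₀ := by linarith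
  by_cases hc2 : L < C₃ * (E + C₀)
  · -- case (iii)
    apply hred m3 hm3p ((min_le_right _ _).trans (min_le_left _ _))
    have hcf := hM.cardf
    rw [← hl] at hcf
    obtain ⟨hL5, hcardP⟩ := kb_iii_card hl2 hC₀ hE hC₃0 hC₅ hC₄ hc2 hcf
    have hδL : δ * L ≤ 1 * L := mul_le_mul_of_nonneg_right hδ1 hL0
    have hwsE : ws * 1 ≤ ws * E := mul_le_mul_of_nonneg_left hE hws0
    have h3 : 4 * (2 * (C₅ + ws)) * E ≤ C' * E := by
      apply mul_le_mul_of_nonneg_right _ hE0.le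
      rw [hC']; linarith
    have hw0W : w0 ≤ W / 2 := by linarith
    have h4 : 4 * (320 * C₀ * C₄) * E ≤ C' * E := by
      apply mul_le_mul_of_nonneg_right _ hE0.le
      rw [hC']; linarith
    have h1 := kfin_few hCK hM P hM.sub (C₄ * E)
      (by calc (1 : ℝ) = 1 * 1 := by ring
            _ ≤ C₄ * E := mul_le_mul hC₄1 hE (by norm_num) (by linarith)) hcardP
      (by rw [← hW]; exact hWpos) (by rw [← hW, ← hF]; linarith) (by
        rw [← hW]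
        calc 320 * C₀ * (C₄ * E) = (4 * (320 * C₀ * C₄) * E) / 4 := by ring
          _ ≤ W := by linarith)
    rw [← hW] at h1
    refine le_trans ?_ h1
    rw [hm3]
    have h5 : 0 < C₄ := by linarith
    calc 1 / (C₄ ^ 3 * 41472000) / 4 * (N / E ^ 3) = (N / 4) / ((C₄ * E) ^ 3 * 41472000) := by
          field_simp
      _ ≤ W / ((C₄ * E) ^ 3 * 41472000) := by gcongr
  -- case (ii)
  push Not at hc2
  have hG := kb_ii_G hC₀ hM hA1 hexp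
  have hLA : C₃ ≤ L / (E + C₀) := by rw [le_div_iff₀ (by linarith)]; exact hc2
  have hSr : (V \ P).card ≤ r := by
    have : ((V \ P).card : ℝ) ≤ r := hM.card.trans hr
    exact_mod_cast this
  have hdis : Disjoint P (V \ P) := Finset.disjoint_sdiff
  have hun : P ∪ (V \ P) = V := Finset.union_sdiff_of_subset hM.sub
  have hmain : ∀ j : ℕ, 1 ≤ j →
      ∑ v ∈ P ∪ (V \ P), w v * B2 (j * t v) - (C₀ + 1) ≤ 144 * e * (j : ℝ) ^ 2 := by
    intro j hj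
    have h5 := hM.main j hj
    rw [hun]
    linarith
  have hcond : C₁ * (1 + (∑ v ∈ V \ P, w v) / (E + C₀)) ≤ ∑ v ∈ P, w v / (n v : ℝ) ^ 2 := by
    refine le_trans ?_ hG
    rw [← hw0]
    exact kb_ii_cond hC₁ hA1 hws0 hδ rfl (by linarith) hw0le (by linarith)
  have hfin := hT2 P (V \ P) w t n (144 * e) (E + C₀) hdis hSr
    (by rw [hun]; exact hM.nonneg) (by positivity) hA1 hmain
    (fun v hv => ⟨hM.npos v hv, hexp v hv, hM.int v hv⟩) hcond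
  have hL1 : C₃ ≤ L := by
    calc C₃ = C₃ * 1 := (mul_one _).symm
      _ ≤ C₃ * (E + C₀) := mul_le_mul_of_nonneg_left hA1 hC₃0
      _ ≤ L := hc2
  have h1 := kb_ii_concl hc₂ hC₀ hE hL0 hδ1 (by linarith) hfin hC₃1 hws0 hL1 hNH
    (by linarith) hsplit hw0le (by linarith) hDE
  refine le_trans (mul_le_mul_of_nonneg_right ?_ (by positivity)) h1
  rw [← hm4]
  exact (min_le_right _ _).trans (min_le_right _ _)

theorem st_KB (hMT : ST_KMT) (hDF : ST_KDF) (hCK : ST_CK) (hT2 : ST_T2r) (hU : ST_KU) :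
    ST_KB := by
  intro K _ _
  obtain ⟨C₀, hC₀, hMT⟩ := hMT K
  obtain ⟨cU, hcU, hU⟩ := hU K
  obtain ⟨c, C', hc, hC', hcore⟩ := kb_core hCK hT2 C₀ hC₀
  have hC'0 : 0 < C' := by linarith
  have hm1 : 0 < cU / C' ^ 3 := by positivity
  refine ⟨min (cU / C' ^ 3 / 2) c, lt_min (by positivity) hc, ?_⟩
  intro A B hD E hE hEx x y e hg he
  obtain ⟨hLD0, hLR0, hLRD, -, H, hLDH, hHK, hHK2, V, P, w, t, n, hM, hexp⟩ :=
    hMT A B hD x y e hg he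
  have hDE := LD_le hDF K A B hD E hEx
  have hexp := hexp E hEx
  have hUe := hU A B hD x y e hg he
  have hN1 : 1 ≤ 1 + HK A B := by linarith
  have he0 : 0 ≤ e := by
    have : 0 < (1 + HK A B) ^ (-(19 / 29 : ℝ)) := Real.rpow_pos_of_pos (by linarith) _
    have h1 : 0 < cU * (1 + HK A B) ^ (-(19 / 29 : ℝ)) := by positivity
    linarith
  have hE0 : 0 < E := by linarith
  by_cases hs1 : 1 + HK A B ≤ C' * E
  · refine le_trans (mul_le_mul_of_nonneg_right (min_le_left _ _) (by positivity)) ?_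
    exact fin_arith hm1 hE (by linarith) (by linarith) (kb_small hcU hC'0 hN1 hE hs1 hUe)
  · push Not at hs1
    refine le_trans (mul_le_mul_of_nonneg_right (min_le_right _ _) (by positivity)) ?_
    exact hcore hM E (1 + HK A B) he0 hLR0 hLRD hLDH hE hDE hexp (by linarith) (by linarith) hs1

end Pool.Agent.Helper54.LK
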