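import Pool.Agent.Helper42.LK.All
import Pool.Agent.Helper54.LK.KB
import Pool.Agent.Helper18.LS.K1
import Pool.Agent.Helper18.LS.K2

/-!
# The 19/29 bound and the bounded exponents bound over number fields
-/

namespace Pool.Agent.Helper54.LK

open Pool.Agent.Helper42.LS Pool.Agent.Helper42.LK

theorem kall_T2r : Pool.Agent.Helper54.LS.ST_T2r :=
  Pool.Agent.Helper54.LS.st_T2r Pool.Agent.Helper54.LS.st_K1 Pool.Agent.Helper54.LS.st_K2
    (Pool.Agent.Helper54.LS.st_K4r Pool.Agent.Helper54.LS.st_K1 Pool.Agent.Helper54.LS.st_K2)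

theorem kall_U : ST_KU :=
  st_KU kall_MT kall_SM (st_CB st_F1 st_F3 st_F4) (st_CK st_F2) kall_T2r

theorem kall_B : ST_KB := st_KB kall_MT kall_DF (st_CK st_F2) kall_T2r kall_U

end Pool.Agent.Helper54.LK
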