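import Pool.Agent.Helper54.LK.AllK

open Filter Topology NumberField

namespace Pool.Agent.Helper54.LK.BoundedExponents

open Pool.Agent.Helper42.LK

/-- Lower bound for the canonical height of a point of infinite order on an elliptic curve over a
number field, all exponents of the minimal discriminant ideal being at most `E`. -/
theorem result (K : Type) [Field K] [NumberField K] [DecidableEq K] :
    ∃ c : ℝ, 0 < c ∧ ∀ A B : K, 4 * A ^ 3 + 27 * B ^ 2 ≠ 0 → ∀ E : ℝ, 1 ≤ E →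
    (∀ v : FinitePlace K, dl (fun x : K => v x) A B ≤ E * lq v) →
    ∀ P : (ECK A B).toAffine.Point, (∀ n : ℕ, 0 < n → n • P ≠ 0) →
    ∃ e : ℝ, Tendsto (fun n : ℕ => hxK (2 ^ n • P) / 4 ^ n) atTop (𝓝 e) ∧
      c * ((1 + LR A B) / E ^ 3 + (1 + HK A B) / E ^ 4) ≤ e := by
  obtain ⟨c, hc, h⟩ := Pool.Agent.Helper54.LK.kall_B K
  refine ⟨c, hc, ?_⟩
  intro A B hD E hE hEx P hP
  obtain ⟨x, y, e, hg, he, ht⟩ := kpts_seq A B hD P hP
  exact ⟨e, ht, h A B hD E hE hEx x y e hg he⟩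

end Pool.Agent.Helper54.LK.BoundedExponents
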