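import Pool.Agent.Helper55.LS.K4

/-!
# K4r: several real angles
-/

namespace Pool.Agent.Helper54.LS

open Real Filter Topology Pool.Agent.Helper42.LS

/-- K4r: almost no loss at several real angles, after a bounded change of scale -/
def ST_K4r : Prop := ∃ κ C : ℝ, 0 < κ ∧ κ < 1 ∧ 0 < C ∧ ∀ b : ℝ, 0 < b → b ≤ 1 / 6 →
  ∀ (S : Finset ℕ) (α : ℕ → ℝ),
  ∃ b' : ℝ, κ ^ S.card * b ≤ b' ∧ b' ≤ b ∧
    ∀ v ∈ S, -(C * b * WW b') ≤ ∑' j : ℕ, wt b' j * B2 (j * α v)

/-- the case of a very good approximation -/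
theorem k4r_case_good {b b' α β₀ η : ℝ} {q : ℕ} (hb : 0 < b) (hb' : 0 < b')
    (hs : Summable (wt b')) (hq : 1 ≤ q)
    (hqx : 12 * b * q ≤ 1) (hβ : 0 < β₀) (hη0 : 0 ≤ η) (hη : η ≤ β₀ * b' / 4)
    (h0 : ∀ m : ℕ, 12 * b * ((m : ℝ) + 1) ≤ 1 → ¬ q ∣ m + 1 → TT b' (((m : ℝ) + 1) * α) = 0)
    (h1 : ∀ m r : ℕ, 12 * b * ((m : ℝ) + 1) ≤ 1 → m + 1 = q * r → (r : ℝ) * η ≤ β₀ * b' →
      WW b' / 2 ≤ TT b' (((m : ℝ) + 1) * α)) :
    -(24 * b * WW b') ≤ ∑' m : ℕ, TT b' (((m : ℝ) + 1) * α) / ((m : ℝ) + 1) ^ 2 := by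
  classical
  have hW := k4_WW_nonneg b'
  have hq0 : (0 : ℝ) < q := by exact_mod_cast hq
  set T : ℕ → ℝ := fun m => if 1 / (12 * b) < (m : ℝ) + 1 then 1 / ((m : ℝ) + 1) ^ 2 else 0
    with hT
  set E : ℕ → ℝ := fun m => if m = q - 1 then 1 / ((m : ℝ) + 1) ^ 2 else 0 with hE
  set U : ℕ → ℝ := fun m => if (q ∣ m + 1 ∧ β₀ * b' < (((m + 1) / q : ℕ) : ℝ) * η) then
    1 / ((m : ℝ) + 1) ^ 2 else 0 with hU
  have hTs : Summable T := k4_ind_summable (fun m : ℕ => 1 / (12 * b) < (m : ℝ) + 1)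
  have hEs : Summable E := k4_ind_summable (fun m : ℕ => m = q - 1)
  have hUs : Summable U :=
    k4_ind_summable (fun m : ℕ => q ∣ m + 1 ∧ β₀ * b' < (((m + 1) / q : ℕ) : ℝ) * η)
  have hTnn : ∀ m, 0 ≤ T m := fun m => by simp only [hT]; split_ifs <;> positivity
  have hUnn : ∀ m, 0 ≤ U m := fun m => by simp only [hU]; split_ifs <;> positivity
  have hE1 : ∑' m, E m = 1 / (q : ℝ) ^ 2 := by
    rw [tsum_eq_single (q - 1)]
    · simp only [hE, if_true]
      have h2 : ((q - 1 : ℕ) : ℝ) + 1 = q := by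
        have h3 : q - 1 + 1 = q := by omega
        exact_mod_cast h3
      rw [h2]
    · intro m hm
      simp only [hE]
      rw [if_neg hm]
  have hT1 : ∑' m, T m ≤ 24 * b := by
    have h2 := k4_tail (1 / (12 * b)) (by positivity)
    have h3 : 2 / (1 / (12 * b)) = 24 * b := by field_simp; norm_num
    rw [h3] at h2
    exact h2
  have hU1 : ∑' m, U m ≤ (1 / (q : ℝ) ^ 2) * (1 / 2) := by
    rcases hη0.eq_or_lt with h | h
    · have hz : ∀ m, U m = 0 := by
        intro m
        simp only [hU]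
        rw [if_neg]
        rintro ⟨-, h3⟩
        rw [← h, mul_zero] at h3
        nlinarith [mul_pos hβ hb']
      simp only [hz, tsum_zero]
      positivity
    · refine (k4_mult q hq (β₀ * b') η (by positivity) h).trans ?_
      refine mul_le_mul_of_nonneg_left ?_ (by positivity)
      rw [div_le_div_iff₀ (by positivity) (by norm_num)]
      nlinarith
  have hmain : ∑' m : ℕ, (-(WW b' * T m) + WW b' / 2 * E m - WW b' * U m) ≤
      ∑' m : ℕ, TT b' (((m : ℝ) + 1) * α) / ((m : ℝ) + 1) ^ 2 := by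
    refine Summable.tsum_le_tsum (fun m => ?_)
      (((hTs.mul_left _).neg.add (hEs.mul_left _)).sub (hUs.mul_left _)) (k4_F_summable hs)
    have hm1 : (0 : ℝ) < ((m : ℝ) + 1) ^ 2 := by positivity
    have hge : -(WW b' * (1 / ((m : ℝ) + 1) ^ 2)) ≤ TT b' (((m : ℝ) + 1) * α) / ((m : ℝ) + 1) ^ 2 := by
      rw [mul_one_div, ← neg_div]
      exact div_le_div_of_nonneg_right (k4_TT_ge hs _) (by positivity)
    by_cases hx : 12 * b * ((m : ℝ) + 1) ≤ 1
    · have hTm : T m = 0 := by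
        simp only [hT]
        rw [if_neg]
        rw [not_lt, le_div_iff₀ (by positivity)]
        linarith
      by_cases hqm : q ∣ m + 1
      · obtain ⟨r, hr⟩ := hqm
        have hdiv : (m + 1) / q = r := by rw [hr]; exact Nat.mul_div_cancel_left r (by omega)
        by_cases hrη : (r : ℝ) * η ≤ β₀ * b'
        · have h2 := h1 m r hx hr hrη
          have hUm : U m = 0 := by
            simp only [hU]
            rw [if_neg]
            rintro ⟨-, h3⟩
            rw [hdiv] at h3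
            linarith
          have h3 : WW b' / 2 * E m ≤ WW b' / 2 * (1 / ((m : ℝ) + 1) ^ 2) := by
            refine mul_le_mul_of_nonneg_left ?_ (by linarith)
            simp only [hE]
            split_ifs
            · exact le_rfl
            · positivity
          have h4 : WW b' / 2 * (1 / ((m : ℝ) + 1) ^ 2) ≤
              TT b' (((m : ℝ) + 1) * α) / ((m : ℝ) + 1) ^ 2 := by
            rw [mul_one_div]
            exact div_le_div_of_nonneg_right h2 hm1.le
          rw [hTm, hUm]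
          linarith
        · have hUm : U m = 1 / ((m : ℝ) + 1) ^ 2 := by
            simp only [hU]
            rw [if_pos]
            refine ⟨⟨r, hr⟩, ?_⟩
            rw [hdiv]
            exact not_le.1 hrη
          have hEm : E m = 0 := by
            simp only [hE]
            rw [if_neg]
            intro h3
            apply hrη
            have h4 : m + 1 = q := by omega
            rw [h4] at hr
            have h5 : r = 1 := by
              have : q * r = q * 1 := by omega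
              exact Nat.eq_of_mul_eq_mul_left (by omega) this
            rw [h5]
            push_cast
            nlinarith [mul_pos hβ hb']
          rw [hTm, hEm, hUm]
          linarith
      · have hEm : E m = 0 := by
          simp only [hE]
          rw [if_neg]
          intro h3
          apply hqm
          have h4 : m + 1 = q := by omega
          rw [h4]
        have hUm : U m = 0 := by
          simp only [hU]
          rw [if_neg]
          rintro ⟨h3, -⟩
          exact hqm h3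
        rw [hTm, hEm, hUm, h0 m hx hqm]
        simp
    · have hTm : T m = 1 / ((m : ℝ) + 1) ^ 2 := by
        simp only [hT]
        rw [if_pos]
        rw [div_lt_iff₀ (by positivity)]
        linarith [not_le.1 hx]
      have hEm : E m = 0 := by
        simp only [hE]
        rw [if_neg]
        intro h3
        apply hx
        have h4 : m + 1 = q := by omega
        have h5 : (m : ℝ) + 1 = q := by exact_mod_cast h4
        rw [h5]
        exact hqx
      have h6 := mul_nonneg hW (hUnn m)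
      rw [hTm, hEm]
      linarith
  refine le_trans ?_ hmain
  rw [Summable.tsum_sub ((hTs.mul_left _).neg.add (hEs.mul_left _)) (hUs.mul_left _),
    Summable.tsum_add (hTs.mul_left _).neg (hEs.mul_left _), tsum_neg, tsum_mul_left,
    tsum_mul_left, tsum_mul_left, hE1]
  have h2 := mul_le_mul_of_nonneg_left hT1 hW
  have h3 := mul_le_mul_of_nonneg_left hU1 hW
  have h4 : WW b' * (1 / (q : ℝ) ^ 2 * (1 / 2)) = WW b' / 2 * (1 / (q : ℝ) ^ 2) := by ring
  linarith


/-- one angle, all good scales at once -/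
theorem k4r_single (h1 : ST_K1) (h2 : ST_K2) : ∃ κ₁ : ℝ, 0 < κ₁ ∧ κ₁ ≤ 1 ∧
    ∀ b : ℝ, 0 < b → b ≤ 1 / 6 → ∀ α : ℝ, ∃ η : ℝ, ∀ b' : ℝ, 0 < b' → b' ≤ b →
      (η ≤ κ₁ * b' ∨ 3 * b' ≤ η) → -(3 * b * WW b') ≤ ∑' j : ℕ, wt b' j * B2 (j * α) := by
  classical
  obtain ⟨c₁, c₂, hc₁, hc₂, h2⟩ := h2
  set β₀ : ℝ := √(c₁ / (4 * π ^ 2 * c₂)) with hβ₀
  have hβpos : 0 < β₀ := Real.sqrt_pos.2 (by positivity)
  have hβsq : β₀ ^ 2 = c₁ / (4 * π ^ 2 * c₂) := Real.sq_sqrt (by positivity)
  set κ₁ : ℝ := min (β₀ / 4) 1 with hκ₁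
  have hκpos : 0 < κ₁ := lt_min (by positivity) one_pos
  have hκ1 : κ₁ ≤ 1 := min_le_right _ _
  have hκβ : κ₁ ≤ β₀ / 4 := min_le_left _ _
  refine ⟨κ₁, hκpos, hκ1, ?_⟩
  intro b hb hb6 α
  have hfin : ∀ b' : ℝ, Summable (wt b') →
      -(24 * b * WW b') ≤ ∑' m : ℕ, TT b' (((m : ℝ) + 1) * α) / ((m : ℝ) + 1) ^ 2 →
      -(3 * b * WW b') ≤ ∑' j : ℕ, wt b' j * B2 (j * α) := by
    intro b' hs' h
    rw [k4_sum hs']
    have hW := k4_WW_nonneg b'
    have hπ : 9 ≤ π ^ 2 := by nlinarith [Real.pi_gt_three]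
    have h3 : -(3 * b * WW b') ≤ (1 / π ^ 2) * (-(24 * b * WW b')) := by
      rw [one_div, inv_mul_eq_div, le_div_iff₀ (by positivity)]
      nlinarith [mul_nonneg hb.le hW]
    refine h3.trans ?_
    exact mul_le_mul_of_nonneg_left h (by positivity)
  by_cases hex : ∃ k : ℕ, 1 ≤ k ∧ 12 * b * k ≤ 1 ∧ ∃ n : ℤ, |(k : ℝ) * α - n| < 3 * b
  · -- minimal such k
    set q := Nat.find hex with hq
    obtain ⟨hq1, hqx, l, hl⟩ := Nat.find_spec hex
    have hmin : ∀ k : ℕ, 1 ≤ k → k < q → ∀ n : ℤ, 3 * b ≤ |(k : ℝ) * α - n| := by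
      intro k hk hkq n
      by_contra hcon
      refine Nat.find_min hex hkq ⟨hk, ?_, n, not_le.1 hcon⟩
      have h3 : (k : ℝ) ≤ q := by exact_mod_cast hkq.le
      have h4 : 12 * b * k ≤ 12 * b * q := mul_le_mul_of_nonneg_left h3 (by positivity)
      exact h4.trans hqx
    have hq1' : 1 ≤ q := hq1
    have hqx' : 12 * b * q ≤ 1 := hqx
    have hl' : |(q : ℝ) * α - l| < 3 * b := hl
    set η := |(q : ℝ) * α - l| with hη
    have hη0 : 0 ≤ η := abs_nonneg _
    have hnear : ∀ m : ℕ, 12 * b * ((m : ℝ) + 1) ≤ 1 → ¬ q ∣ m + 1 →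
        3 * b ≤ nd (((m : ℝ) + 1) * α) := by
      intro m hm hdvd
      by_contra hcon
      obtain ⟨n, hn⟩ := k4_nd_exists (((m : ℝ) + 1) * α)
      have hn' : |((m + 1 : ℕ) : ℝ) * α - n| < 3 * b := by
        push_cast
        rw [hn]
        exact not_le.1 hcon
      exact hdvd (k4_dvd hb hq1' hqx' hl' hmin (m + 1) (by omega) (by push_cast; exact hm) n hn')
    have hmult : ∀ m r : ℕ, 12 * b * ((m : ℝ) + 1) ≤ 1 → m + 1 = q * r →
        nd (((m : ℝ) + 1) * α) = r * η := by
      intro m r hm hr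
      have hrR : (m : ℝ) + 1 = q * r := by exact_mod_cast hr
      have hr1 : 1 ≤ r := by
        rcases Nat.eq_zero_or_pos r with h | h
        · rw [h] at hr; omega
        · exact h
      have hr0 : (0 : ℝ) < r := by exact_mod_cast hr1
      have h3 : |((m : ℝ) + 1) * α - ((r * l : ℤ) : ℝ)| = r * η := by
        rw [hrR, hη, ← abs_of_pos hr0, ← abs_mul, abs_of_pos hr0]
        congr 1
        push_cast
        ring
      have h4 : (r : ℝ) * η ≤ 1 / 4 := by
        have h5 : (r : ℝ) * η ≤ r * (3 * b) := mul_le_mul_of_nonneg_left hl'.le hr0.le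
        have hq0 : (1 : ℝ) ≤ q := by exact_mod_cast hq1'
        have h6 : (r : ℝ) ≤ (m : ℝ) + 1 := by rw [hrR]; nlinarith
        have h7 : (r : ℝ) * (3 * b) ≤ ((m : ℝ) + 1) * (3 * b) :=
          mul_le_mul_of_nonneg_right h6 (by positivity)
        linarith
      refine le_antisymm (by rw [← h3]; exact k4_nd_le _ _) ?_
      obtain ⟨n, hn⟩ := k4_nd_exists (((m : ℝ) + 1) * α)
      by_cases hnr : n = r * l
      · rw [hnr, h3] at hn
        exact hn.le
      · rw [← hn]
        have h5 : (1 : ℝ) ≤ |((n - r * l : ℤ) : ℝ)| := by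
          have h6 : (1 : ℤ) ≤ |n - r * l| := Int.one_le_abs (sub_ne_zero.2 hnr)
          exact_mod_cast h6
        have h6 : ((n - r * l : ℤ) : ℝ) = (((m : ℝ) + 1) * α - ((r * l : ℤ) : ℝ)) -
            (((m : ℝ) + 1) * α - n) := by push_cast; ring
        rw [h6] at h5
        have h7 := abs_sub (((m : ℝ) + 1) * α - ((r * l : ℤ) : ℝ)) (((m : ℝ) + 1) * α - n)
        rw [h3] at h7
        linarith
    refine ⟨η, ?_⟩
    intro b' hb' hb'b hor
    have hb6' : b' ≤ 1 / 6 := hb'b.trans hb6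
    obtain ⟨hs, hs2, hW1, hV1⟩ := h2 b' hb' hb6'
    rcases hor with hgood | hbig
    · refine hfin b' hs ?_
      refine k4r_case_good (β₀ := β₀) (η := η) (q := q) hb hb' hs hq1' hqx' hβpos hη0 ?_ ?_ ?_
      · calc η ≤ κ₁ * b' := hgood
          _ ≤ β₀ / 4 * b' := mul_le_mul_of_nonneg_right hκβ hb'.le
          _ = β₀ * b' / 4 := by ring
      · intro m hm hdvd
        refine h1 b' _ hb' hb6' (le_trans ?_ (hnear m hm hdvd))
        linarith
      · intro m r hm hr hrη
        have h3 := k4_TT_near hs hs2 (((m : ℝ) + 1) * α)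
        rw [hmult m r hm hr] at h3
        have hV0 : 0 ≤ VV b' := tsum_nonneg (fun j => mul_nonneg (k4_wt_nonneg b' j) (by positivity))
        have h4 : ((r : ℝ) * η) ^ 2 ≤ (β₀ * b') ^ 2 :=
          pow_le_pow_left₀ (by positivity) hrη 2
        have h5 : 2 * π ^ 2 * ((r : ℝ) * η) ^ 2 * VV b' ≤ 2 * π ^ 2 * (β₀ * b') ^ 2 * (c₂ * b') := by
          refine mul_le_mul ?_ hV1 hV0 (by positivity)
          exact mul_le_mul_of_nonneg_left h4 (by positivity)
        have h6 : 2 * π ^ 2 * (β₀ * b') ^ 2 * (c₂ * b') = c₁ * b' ^ 3 / 2 := by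
          rw [mul_pow, hβsq]
          field_simp
          ring
        linarith
    · refine hfin _ hs ?_
      refine k4_case_zero hb hs (fun m hm => ?_)
      refine h1 _ _ hb' hb6' ?_
      by_cases hdvd : q ∣ m + 1
      · obtain ⟨r, hr⟩ := hdvd
        rw [hmult m r hm hr]
        have hr1 : 1 ≤ r := by
          rcases Nat.eq_zero_or_pos r with h | h
          · rw [h] at hr; omega
          · exact h
        have hr0 : (1 : ℝ) ≤ r := by exact_mod_cast hr1
        nlinarith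
      · have h3 := hnear m hm hdvd
        linarith
  · -- no good approximation
    refine ⟨0, ?_⟩
    intro b' hb' hb'b _
    have hb6' : b' ≤ 1 / 6 := hb'b.trans hb6
    obtain ⟨hs, -, -, -⟩ := h2 b' hb' hb6'
    refine hfin b' hs (k4_case_zero hb hs (fun m hm => ?_))
    refine h1 b' _ hb' hb6' ?_
    by_contra hcon
    obtain ⟨n, hn⟩ := k4_nd_exists (((m : ℝ) + 1) * α)
    refine hex ⟨m + 1, by omega, by push_cast; exact hm, n, ?_⟩
    push_cast
    rw [hn]
    linarith [not_le.1 hcon]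

theorem st_K4r (h1 : ST_K1) (h2 : ST_K2) : ST_K4r := by
  classical
  obtain ⟨κ₁, hκ0, hκ1, hsing⟩ := k4r_single h1 h2
  refine ⟨κ₁ / 3, 3, by positivity, by linarith, by norm_num, ?_⟩
  intro b hb hb6 S α
  have hex : ∀ v : ℕ, ∃ η : ℝ, ∀ b' : ℝ, 0 < b' → b' ≤ b →
      (η ≤ κ₁ * b' ∨ 3 * b' ≤ η) → -(3 * b * WW b') ≤ ∑' j : ℕ, wt b' j * B2 (j * α v) :=
    fun v => hsing b hb hb6 (α v)
  choose η hη using hex
  set sc : ℕ → ℝ := fun i => (κ₁ / 3) ^ i * b with hsc
  have hsc0 : ∀ i, 0 < sc i := fun i => by simp only [hsc]; positivity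
  have hscb : ∀ i, sc i ≤ b := fun i => by
    simp only [hsc]
    have : (κ₁ / 3) ^ i ≤ 1 := pow_le_one₀ (by positivity) (by linarith)
    nlinarith
  -- each angle is bad for at most one scale
  have hone : ∀ v : ℕ, ∀ i j : ℕ, i < j →
      ¬ (η v ≤ κ₁ * sc i ∨ 3 * sc i ≤ η v) → (η v ≤ κ₁ * sc j ∨ 3 * sc j ≤ η v) := by
    intro v i j hij hbad
    right
    push Not at hbad
    have h3 : sc j ≤ (κ₁ / 3) * sc i := by
      simp only [hsc]
      have h4 : (κ₁ / 3) ^ j ≤ (κ₁ / 3) ^ (i + 1) :=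
        pow_le_pow_of_le_one (by positivity) (by linarith) hij
      have h5 : (κ₁ / 3) ^ (i + 1) = (κ₁ / 3) * (κ₁ / 3) ^ i := by ring
      rw [h5] at h4
      calc (κ₁ / 3) ^ j * b ≤ ((κ₁ / 3) * (κ₁ / 3) ^ i) * b := by gcongr
        _ = _ := by ring
    linarith [hbad.1]
  -- pigeonhole
  have hpig : ∃ i ∈ Finset.range (S.card + 1), ∀ v ∈ S, (η v ≤ κ₁ * sc i ∨ 3 * sc i ≤ η v) := by
    by_contra hcon
    push Not at hcon
    have hcon' : ∀ i ∈ Finset.range (S.card + 1), ∃ v ∈ S,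
        ¬ (η v ≤ κ₁ * sc i ∨ 3 * sc i ≤ η v) := by
      intro i hi
      obtain ⟨v, hv, h3⟩ := hcon i hi
      exact ⟨v, hv, by push Not; exact h3⟩
    choose! f hf hfb using hcon'
    have hinj := Finset.exists_ne_map_eq_of_card_lt_of_maps_to (s := Finset.range (S.card + 1))
      (t := S) (f := f) (by simp) (fun i hi => hf i hi)
    obtain ⟨i, hi, j, hj, hij, hfij⟩ := hinj
    rcases lt_or_gt_of_ne hij with h | h
    · exact hfb j hj (by rw [← hfij]; exact hone _ i j h (hfb i hi))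
    · exact hfb i hi (by rw [hfij]; exact hone _ j i h (hfb j hj))
  obtain ⟨i, hi, hgood⟩ := hpig
  rw [Finset.mem_range] at hi
  refine ⟨sc i, ?_, hscb i, ?_⟩
  · simp only [hsc]
    have h4 : (κ₁ / 3) ^ S.card ≤ (κ₁ / 3) ^ i :=
      pow_le_pow_of_le_one (by positivity) (by linarith) (by omega)
    gcongr
  · intro v hv
    exact hη v (sc i) (hsc0 i) (hscb i) (hgood v hv)

end Pool.Agent.Helper54.LS
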