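import Mathlib

/-!
# Real number lemmas for the 19/29 bound
-/

namespace Pool.Agent.Helper54.LK

open Real

/-- Hölder: `(∑ w)³ ≤ (∑ w n)² (∑ w / n²)` -/
lemma holder3 {P : Finset ℕ} {w : ℕ → ℝ} {n : ℕ → ℕ} (h0 : ∀ p ∈ P, 0 ≤ w p)
    (h1 : ∀ p ∈ P, 1 ≤ n p) :
    (∑ p ∈ P, w p) ^ 3 ≤ (∑ p ∈ P, w p * n p) ^ 2 * ∑ p ∈ P, w p / (n p : ℝ) ^ 2 := by
  -- Cauchy-Schwarz twice
  have hA0 : 0 ≤ ∑ p ∈ P, w p := Finset.sum_nonneg h0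
  have hD0 : 0 ≤ ∑ p ∈ P, w p / (n p : ℝ) ^ 2 :=
    Finset.sum_nonneg (fun p hp => div_nonneg (h0 p hp) (by positivity))
  have hn : ∀ p ∈ P, (n p : ℝ) ≠ 0 := fun p hp => by have := h1 p hp; positivity
  have h3 : (∑ p ∈ P, w p) ^ 2 ≤ (∑ p ∈ P, w p * n p) * ∑ p ∈ P, w p / n p :=
    Finset.sum_sq_le_sum_mul_sum_of_sq_le_mul P (r := fun p => w p)
      (f := fun p => w p * n p) (g := fun p => w p / n p)
      (fun p hp => mul_nonneg (h0 p hp) (Nat.cast_nonneg _))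
      (fun p hp => div_nonneg (h0 p hp) (Nat.cast_nonneg _))
      (fun p hp => by
        have := hn p hp
        apply le_of_eq
        field_simp)
  have h4 : (∑ p ∈ P, w p / n p) ^ 2 ≤ (∑ p ∈ P, w p) * ∑ p ∈ P, w p / (n p : ℝ) ^ 2 :=
    Finset.sum_sq_le_sum_mul_sum_of_sq_le_mul P (r := fun p => w p / n p)
      (f := fun p => w p) (g := fun p => w p / (n p : ℝ) ^ 2) h0
      (fun p hp => div_nonneg (h0 p hp) (by positivity))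
      (fun p hp => by
        have := hn p hp
        apply le_of_eq
        field_simp)
  rcases hA0.eq_or_lt with h | h
  · have h9 : (∑ p ∈ P, w p) ^ 3 = 0 := by rw [← h]; norm_num
    rw [h9]
    exact mul_nonneg (sq_nonneg _) hD0
  · have h5 : (∑ p ∈ P, w p) ^ 4 ≤ (∑ p ∈ P, w p * n p) ^ 2 *
        ((∑ p ∈ P, w p) * ∑ p ∈ P, w p / (n p : ℝ) ^ 2) := by
      calc (∑ p ∈ P, w p) ^ 4 = ((∑ p ∈ P, w p) ^ 2) ^ 2 := by ring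
        _ ≤ ((∑ p ∈ P, w p * n p) * ∑ p ∈ P, w p / n p) ^ 2 :=
          pow_le_pow_left₀ (by positivity) h3 2
        _ = (∑ p ∈ P, w p * n p) ^ 2 * (∑ p ∈ P, w p / n p) ^ 2 := by ring
        _ ≤ _ := mul_le_mul_of_nonneg_left h4 (by positivity)
    have h6 : (∑ p ∈ P, w p) * (∑ p ∈ P, w p) ^ 3 ≤ (∑ p ∈ P, w p) *
        ((∑ p ∈ P, w p * n p) ^ 2 * ∑ p ∈ P, w p / (n p : ℝ) ^ 2) := by
      calc (∑ p ∈ P, w p) * (∑ p ∈ P, w p) ^ 3 = (∑ p ∈ P, w p) ^ 4 := by ring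
        _ ≤ _ := h5
        _ = _ := by ring
    exact le_of_mul_le_mul_left h6 h

/-- lower bound for `∑ w / n²` in terms of the second moment -/
lemma G_low {Q : Finset ℕ} {w : ℕ → ℝ} {n : ℕ → ℕ} {l W D : ℝ} (hl : 0 < l) (hW : 0 < W)
    (hD : 0 < D) (h0 : ∀ p ∈ Q, 0 ≤ w p) (h1 : ∀ p ∈ Q, 1 ≤ n p)
    (h2 : ∀ p ∈ Q, n p * l ≤ w p) (h3 : W / 2 ≤ ∑ p ∈ Q, w p)
    (h4 : ∑ p ∈ Q, w p ^ 2 ≤ D) :
    l ^ 2 / 8 * (W ^ 3 / D ^ 2) ≤ ∑ p ∈ Q, w p / (n p : ℝ) ^ 2 := by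
  have h5 := holder3 h0 h1
  have h6 : ∑ p ∈ Q, w p * n p ≤ D / l := by
    rw [le_div_iff₀ hl, Finset.sum_mul]
    refine le_trans (Finset.sum_le_sum ?_) h4
    intro p hp
    have h7 := mul_le_mul_of_nonneg_left (h2 p hp) (h0 p hp)
    nlinarith
  have h7 : 0 ≤ ∑ p ∈ Q, w p * n p :=
    Finset.sum_nonneg (fun p hp => mul_nonneg (h0 p hp) (Nat.cast_nonneg _))
  have hG0 : 0 ≤ ∑ p ∈ Q, w p / (n p : ℝ) ^ 2 :=
    Finset.sum_nonneg (fun p hp => div_nonneg (h0 p hp) (by positivity))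
  have h8 : (W / 2) ^ 3 ≤ (D / l) ^ 2 * ∑ p ∈ Q, w p / (n p : ℝ) ^ 2 :=
    calc (W / 2) ^ 3 ≤ (∑ p ∈ Q, w p) ^ 3 := pow_le_pow_left₀ (by positivity) h3 3
      _ ≤ (∑ p ∈ Q, w p * n p) ^ 2 * ∑ p ∈ Q, w p / (n p : ℝ) ^ 2 := h5
      _ ≤ _ := mul_le_mul_of_nonneg_right (pow_le_pow_left₀ h7 h6 2) hG0
  calc l ^ 2 / 8 * (W ^ 3 / D ^ 2) = (W / 2) ^ 3 * (l ^ 2 / D ^ 2) := by ring
    _ ≤ ((D / l) ^ 2 * ∑ p ∈ Q, w p / (n p : ℝ) ^ 2) * (l ^ 2 / D ^ 2) :=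
      mul_le_mul_of_nonneg_right h8 (by positivity)
    _ = ∑ p ∈ Q, w p / (n p : ℝ) ^ 2 := by field_simp

lemma alg1 {e c W ρ : ℝ} (he : 0 < e) (hc : 0 < c) (hW : 0 < W) (hρ : 0 < ρ)
    (h : c * ρ ^ (8 / 3 : ℝ) * W ≤ e) :
    c ^ (3 / 4 : ℝ) * (W ^ (-(1 / 4) : ℝ) * e ^ (-(3 / 4) : ℝ)) ≤ 1 / (W * ρ ^ 2) := by
  have h5 : ρ ^ (8 / 3 : ℝ) ≤ e / (c * W) := by
    rw [le_div_iff₀ (by positivity)]; linarith
  have h6 : ρ ^ 2 ≤ (e / (c * W)) ^ (3 / 4 : ℝ) := by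
    calc ρ ^ 2 = (ρ ^ (8 / 3 : ℝ)) ^ (3 / 4 : ℝ) := by
          rw [← Real.rpow_mul hρ.le, ← Real.rpow_natCast]; norm_num
      _ ≤ _ := Real.rpow_le_rpow (by positivity) h5 (by norm_num)
  rw [Real.div_rpow he.le (by positivity), Real.mul_rpow hc.le hW.le] at h6
  have h8 : W ^ (-(1 / 4) : ℝ) = W ^ (3 / 4 : ℝ) / W := by
    rw [eq_div_iff hW.ne']
    nth_rewrite 2 [← Real.rpow_one W]
    rw [← Real.rpow_add hW]; norm_num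
  have h9 : e ^ (-(3 / 4) : ℝ) = 1 / e ^ (3 / 4 : ℝ) := by
    rw [Real.rpow_neg he.le, one_div]
  rw [h8, h9]
  have h10 : 0 < e ^ (3 / 4 : ℝ) := Real.rpow_pos_of_pos he _
  have h11 : 0 < c ^ (3 / 4 : ℝ) := Real.rpow_pos_of_pos hc _
  have h12 : 0 < W ^ (3 / 4 : ℝ) := Real.rpow_pos_of_pos hW _
  generalize e ^ (3 / 4 : ℝ) = a at *
  generalize c ^ (3 / 4 : ℝ) = b at *
  generalize W ^ (3 / 4 : ℝ) = d at *
  rw [le_div_iff₀ (by positivity)]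
  calc b * (d / W * (1 / a)) * (W * ρ ^ 2) ≤ b * (d / W * (1 / a)) * (W * (a / (b * d))) := by
        gcongr
    _ = 1 := by field_simp

lemma alg2 {e C k W : ℝ} (he : 0 < e) (hC : 0 < C) (hk : 0 < k) (hW : 0 < W)
    (h : e ≤ (k / C) ^ (4 / 3 : ℝ) * W ^ (-(1 / 3) : ℝ)) :
    C ≤ k * (W ^ (-(1 / 4) : ℝ) * e ^ (-(3 / 4) : ℝ)) := by
  have hkC : 0 < k / C := by positivity
  have hE : 0 < (k / C) ^ (4 / 3 : ℝ) := Real.rpow_pos_of_pos hkC _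
  have h6 : ((k / C) ^ (4 / 3 : ℝ) * W ^ (-(1 / 3) : ℝ)) ^ (-(3 / 4) : ℝ) ≤ e ^ (-(3 / 4) : ℝ) :=
    Real.rpow_le_rpow_of_nonpos he h (by norm_num)
  have h7 : ((k / C) ^ (4 / 3 : ℝ) * W ^ (-(1 / 3) : ℝ)) ^ (-(3 / 4) : ℝ) =
      (C / k) * W ^ (1 / 4 : ℝ) := by
    rw [Real.mul_rpow hE.le (Real.rpow_nonneg hW.le _), ← Real.rpow_mul hW.le,
      ← Real.rpow_mul hkC.le]
    have h8 : ((4 : ℝ) / 3 * -(3 / 4)) = -1 := by norm_num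
    have h9 : (-(1 / 3 : ℝ) * -(3 / 4)) = 1 / 4 := by norm_num
    rw [h8, h9, Real.rpow_neg_one, inv_div]
  rw [h7] at h6
  have h8 : W ^ (-(1 / 4) : ℝ) * W ^ (1 / 4 : ℝ) = 1 := by
    rw [← Real.rpow_add hW]; norm_num
  have h9 : 0 < W ^ (-(1 / 4) : ℝ) := Real.rpow_pos_of_pos hW _
  calc C = k * (C / k) * (W ^ (-(1 / 4) : ℝ) * W ^ (1 / 4 : ℝ)) := by
        rw [h8]; field_simp
    _ = k * (W ^ (-(1 / 4) : ℝ) * ((C / k) * W ^ (1 / 4 : ℝ))) := by ring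
    _ ≤ k * (W ^ (-(1 / 4) : ℝ) * e ^ (-(3 / 4) : ℝ)) :=
      mul_le_mul_of_nonneg_left (mul_le_mul_of_nonneg_left h6 h9.le) hk.le

lemma alg3 {e c k W l N : ℝ} (he : 0 < e) (hc : 0 < c) (hk : 0 < k) (hW : 0 < W) (hl : 0 < l)
    (hN : 0 < N)
    (h : c * (k * (W ^ (-(1 / 4) : ℝ) * e ^ (-(3 / 4) : ℝ))) ≤
      144 * e * ((N * e * W ^ 2) ^ (1 / 3 : ℝ) / l) ^ 2) :
    (c * k * l ^ 2 / (144 * N ^ (2 / 3 : ℝ))) ^ (12 / 29 : ℝ) * W ^ (-(19 / 29) : ℝ) ≤ e := by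
  set S : ℝ := N ^ (2 / 3 : ℝ) with hS
  have hS0 : 0 < S := Real.rpow_pos_of_pos hN _
  set k4 : ℝ := c * k * l ^ 2 / (144 * S) with hk4
  have hk40 : 0 < k4 := by positivity
  have hM2 : ((N * e * W ^ 2) ^ (1 / 3 : ℝ)) ^ 2 = S * e ^ (2 / 3 : ℝ) * W ^ (4 / 3 : ℝ) := by
    rw [← Real.rpow_natCast, ← Real.rpow_mul (by positivity),
      Real.mul_rpow (by positivity) (by positivity), Real.mul_rpow (by positivity) (by positivity),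
      ← Real.rpow_natCast W 2, ← Real.rpow_mul hW.le, hS]
    norm_num
  have h6 : 144 * e * ((N * e * W ^ 2) ^ (1 / 3 : ℝ) / l) ^ 2 = 144 * S / l ^ 2 *
      (e ^ (5 / 3 : ℝ) * W ^ (4 / 3 : ℝ)) := by
    rw [div_pow, hM2]
    have h7 : e ^ (5 / 3 : ℝ) = e * e ^ (2 / 3 : ℝ) := by
      nth_rewrite 2 [← Real.rpow_one e]
      rw [← Real.rpow_add he]; norm_num
    rw [h7]
    ring
  rw [h6] at h
  have h8 : W ^ (-(19 / 12) : ℝ) = W ^ (-(1 / 4) : ℝ) * W ^ (-(4 / 3) : ℝ) := by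
    rw [← Real.rpow_add hW]; norm_num
  have h9 : e ^ (29 / 12 : ℝ) = e ^ (5 / 3 : ℝ) * e ^ (3 / 4 : ℝ) := by
    rw [← Real.rpow_add he]; norm_num
  have h10 : e ^ (-(3 / 4) : ℝ) * e ^ (3 / 4 : ℝ) = 1 := by
    rw [← Real.rpow_add he]; norm_num
  have h11 : W ^ (4 / 3 : ℝ) * W ^ (-(4 / 3) : ℝ) = 1 := by
    rw [← Real.rpow_add hW]; norm_num
  have p1 : 0 < W ^ (-(4 / 3) : ℝ) := Real.rpow_pos_of_pos hW _
  have p2 : 0 < e ^ (3 / 4 : ℝ) := Real.rpow_pos_of_pos he _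
  have h7 : k4 * W ^ (-(19 / 12) : ℝ) ≤ e ^ (29 / 12 : ℝ) := by
    rw [h8, h9]
    generalize W ^ (-(1 / 4) : ℝ) = a1 at *
    generalize W ^ (-(4 / 3) : ℝ) = a2 at *
    generalize W ^ (4 / 3 : ℝ) = a3 at *
    generalize e ^ (-(3 / 4) : ℝ) = b1 at *
    generalize e ^ (3 / 4 : ℝ) = b2 at *
    generalize e ^ (5 / 3 : ℝ) = b3 at *
    calc k4 * (a1 * a2) = (c * (k * (a1 * (b1 * b2)))) * (l ^ 2 / (144 * S)) * a2 := by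
          rw [h10, hk4]; ring
      _ = (c * (k * (a1 * b1))) * ((l ^ 2 / (144 * S)) * a2 * b2) := by ring
      _ ≤ (144 * S / l ^ 2 * (b3 * a3)) * ((l ^ 2 / (144 * S)) * a2 * b2) :=
          mul_le_mul_of_nonneg_right h (by positivity)
      _ = (b3 * b2) * (a3 * a2) * ((144 * S / l ^ 2) * (l ^ 2 / (144 * S))) := by ring
      _ = b3 * b2 := by
          rw [h11]
          have : (144 * S / l ^ 2) * (l ^ 2 / (144 * S)) = 1 := by field_simp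
          rw [this]; ring
  calc k4 ^ (12 / 29 : ℝ) * W ^ (-(19 / 29) : ℝ) = (k4 * W ^ (-(19 / 12) : ℝ)) ^ (12 / 29 : ℝ) := by
        rw [Real.mul_rpow hk40.le (Real.rpow_nonneg hW.le _), ← Real.rpow_mul hW.le]
        norm_num
    _ ≤ (e ^ (29 / 12 : ℝ)) ^ (12 / 29 : ℝ) := Real.rpow_le_rpow (by positivity) h7 (by norm_num)
    _ = e := by rw [← Real.rpow_mul he.le]; norm_num

lemma alg4 {l W C c X : ℝ} (hl : 0 < l) (hW : 0 < W) (hC : 0 ≤ C) (hc : 0 < c)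
    (hX : (C / (c * (l / 2) ^ (2 / 3 : ℝ))) ^ 3 ≤ W) (hρ : l / 2 / W ≤ X) :
    C ≤ c * (X ^ (2 / 3 : ℝ) * W) := by
  have h5 : (l / 2 / W) ^ (2 / 3 : ℝ) ≤ X ^ (2 / 3 : ℝ) :=
    Real.rpow_le_rpow (by positivity) hρ (by norm_num)
  have h7 : W = W ^ (2 / 3 : ℝ) * W ^ (1 / 3 : ℝ) := by
    rw [← Real.rpow_add hW]; norm_num
  have h6 : (l / 2 / W) ^ (2 / 3 : ℝ) * W = (l / 2) ^ (2 / 3 : ℝ) * W ^ (1 / 3 : ℝ) := by
    rw [Real.div_rpow (by positivity) hW.le]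
    have h8 : W ^ (2 / 3 : ℝ) ≠ 0 := (Real.rpow_pos_of_pos hW _).ne'
    rw [div_mul_eq_mul_div, div_eq_iff h8]
    nth_rewrite 1 [h7]
    ring
  have p1 : 0 < (l / 2) ^ (2 / 3 : ℝ) := Real.rpow_pos_of_pos (by positivity) _
  have h10 : 0 ≤ C / (c * (l / 2) ^ (2 / 3 : ℝ)) := div_nonneg hC (by positivity)
  have h9 : C / (c * (l / 2) ^ (2 / 3 : ℝ)) ≤ W ^ (1 / 3 : ℝ) := by
    calc C / (c * (l / 2) ^ (2 / 3 : ℝ)) =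
        ((C / (c * (l / 2) ^ (2 / 3 : ℝ))) ^ 3) ^ (1 / 3 : ℝ) := by
          rw [← Real.rpow_natCast, ← Real.rpow_mul h10]; norm_num
      _ ≤ W ^ (1 / 3 : ℝ) := Real.rpow_le_rpow (by positivity) hX (by norm_num)
  rw [div_le_iff₀ (by positivity)] at h9
  calc C ≤ W ^ (1 / 3 : ℝ) * (c * (l / 2) ^ (2 / 3 : ℝ)) := h9
    _ = c * ((l / 2) ^ (2 / 3 : ℝ) * W ^ (1 / 3 : ℝ)) := by ring
    _ = c * ((l / 2 / W) ^ (2 / 3 : ℝ) * W) := by rw [h6]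
    _ ≤ c * (X ^ (2 / 3 : ℝ) * W) :=
      mul_le_mul_of_nonneg_left (mul_le_mul_of_nonneg_right h5 hW.le) hc.le

end Pool.Agent.Helper54.LK
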