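import Pool.Agent.Helper54.LK.T2r
import Pool.Agent.Helper54.LK.KUa
import Pool.Agent.Helper42.LK.KFin

/-!
# Unconditional lower bound with exponent 19/29 over number fields (sequence form)
-/

namespace Pool.Agent.Helper54.LK

open Real Filter Topology NumberField Pool.Agent.Helper42.LS Pool.Agent.Helper42.LK
open Pool.Agent.Helper54.LS (ST_T2r)

/-- KU : exponent 19/29 -/
def ST_KU : Prop := ∀ (K : Type) [Field K] [NumberField K], ∃ c : ℝ, 0 < c ∧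
  ∀ A B : K, dsc A B ≠ 0 → ∀ (x y : ℕ → K) (e : ℝ), GSeq (0 : K) A B x y → IsCanK x e →
  c * (1 + HK A B) ^ (-(19 / 29 : ℝ)) ≤ e

/-- every place is small: from the dominating place lemma -/
lemma place_smallK (hCK : ST_CK) {C₀ H L Rd : ℝ} {m : ℕ} {e : ℝ}
    {V P : Finset ℕ} {w t : ℕ → ℝ} {n : ℕ → ℕ} (h : MSum C₀ H L Rd m e V P w t n) {v₀ : ℕ}
    (hv : v₀ ∈ V) (hbig : 160 * C₀ ≤ w v₀) (hpos : 0 < w v₀) :
    (w v₀) ^ 3 ≤ 5184000 * e * (∑ v ∈ V, w v) ^ 2 := by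
  set W := ∑ v ∈ V, w v with hW
  have hle : w v₀ ≤ W := Finset.single_le_sum h.nonneg hv
  have hW0 : 0 < W := lt_of_lt_of_le hpos hle
  have h1 := kfin_CK hCK h (κ := w v₀ / W) (by positivity) (by rw [div_le_one hW0]; exact hle) hv
    (by rw [div_mul_cancel₀ _ hW0.ne']) (by rw [div_mul_cancel₀ _ hW0.ne']; exact hbig)
  rw [← hW] at h1
  have h2 : (w v₀ / W) ^ 3 * W / 5184000 = (w v₀) ^ 3 / W ^ 2 / 5184000 := by
    field_simp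
  rw [h2, div_le_iff₀ (by norm_num), div_le_iff₀ (by positivity)] at h1
  linarith

/-- all weights are at most `M` -/
lemma place_leK (hCK : ST_CK) {C₀ H L Rd : ℝ} {m : ℕ} {e : ℝ} (hC₀ : 0 ≤ C₀)
    {V P : Finset ℕ} {w t : ℕ → ℝ} {n : ℕ → ℕ} (h : MSum C₀ H L Rd m e V P w t n) {v₀ : ℕ}
    (hv : v₀ ∈ V) :
    w v₀ ≤ max (160 * (C₀ + 1)) ((5184000 * e * (∑ v ∈ V, w v) ^ 2) ^ (1 / 3 : ℝ)) := by
  by_cases hb : w v₀ ≤ 160 * (C₀ + 1)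
  · exact hb.trans (le_max_left _ _)
  · push Not at hb
    have h5 := place_smallK hCK h hv (by linarith) (by linarith)
    refine le_trans ?_ (le_max_right _ _)
    have h6 : 0 ≤ w v₀ := h.nonneg v₀ hv
    calc w v₀ = ((w v₀) ^ 3) ^ (1 / 3 : ℝ) := by
          rw [← Real.rpow_natCast, ← Real.rpow_mul h6]; norm_num
      _ ≤ _ := Real.rpow_le_rpow (by positivity) h5 (by norm_num)

/-- the archimedean places carry at most a quarter of the mass -/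
lemma arch_smallK (hCK : ST_CK) {C₀ H L Rd : ℝ} {m : ℕ} {e : ℝ} (hC₀ : 0 ≤ C₀)
    {V P : Finset ℕ} {w t : ℕ → ℝ} {n : ℕ → ℕ} (h : MSum C₀ H L Rd m e V P w t n)
    (he : e < 1 / (64 * (C₀ + 1) ^ 3 * 5184000))
    (hW : 640 * (C₀ + 1) ^ 2 ≤ ∑ v ∈ V, w v) :
    ∑ v ∈ V \ P, w v ≤ (∑ v ∈ V, w v) / 4 := by
  set W := ∑ v ∈ V, w v with hWd
  have hC1 : 1 ≤ C₀ + 1 := by linarith
  have hC2 : 1 ≤ (C₀ + 1) ^ 2 := one_le_pow₀ hC1
  have hW1 : 1 ≤ W := by linarith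
  have hcard := h.card
  have hone : ∀ v ∈ V \ P, w v ≤ W / (4 * (C₀ + 1)) := by
    intro v hv
    have hv' := (Finset.mem_sdiff.1 hv).1
    by_contra hcon
    push Not at hcon
    have hb : 160 * (C₀ + 1) ≤ W / (4 * (C₀ + 1)) := by
      rw [le_div_iff₀ (by positivity)]
      calc 160 * (C₀ + 1) * (4 * (C₀ + 1)) = 640 * (C₀ + 1) ^ 2 := by ring
        _ ≤ W := hW
    have h5 := place_smallK hCK h hv' (by linarith) (by linarith)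
    rw [← hWd] at h5
    have h8 : (W / (4 * (C₀ + 1))) ^ 3 < (w v) ^ 3 :=
      pow_lt_pow_left₀ hcon (by positivity) (by norm_num)
    have h9 : (W / (4 * (C₀ + 1))) ^ 3 < 5184000 * (1 / (64 * (C₀ + 1) ^ 3 * 5184000)) * W ^ 2 := by
      calc (W / (4 * (C₀ + 1))) ^ 3 < (w v) ^ 3 := h8
        _ ≤ 5184000 * e * W ^ 2 := h5
        _ ≤ _ := mul_le_mul_of_nonneg_right
          (mul_le_mul_of_nonneg_left he.le (by norm_num)) (by positivity)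
    have h10 : (W / (4 * (C₀ + 1))) ^ 3 = W * (W ^ 2 / (64 * (C₀ + 1) ^ 3)) := by
      field_simp
      norm_num
    have h11 : 5184000 * (1 / (64 * (C₀ + 1) ^ 3 * 5184000)) * W ^ 2 =
        1 * (W ^ 2 / (64 * (C₀ + 1) ^ 3)) := by
      field_simp
    rw [h10, h11] at h9
    have h12 : W < 1 := lt_of_mul_lt_mul_right h9 (by positivity)
    linarith
  calc ∑ v ∈ V \ P, w v ≤ ∑ _v ∈ V \ P, W / (4 * (C₀ + 1)) := Finset.sum_le_sum hone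
    _ = ((V \ P).card : ℝ) * (W / (4 * (C₀ + 1))) := by rw [Finset.sum_const, nsmul_eq_mul]
    _ ≤ (C₀ + 1) * (W / (4 * (C₀ + 1))) :=
      mul_le_mul_of_nonneg_right (by linarith) (by positivity)
    _ = W / 4 := by field_simp

/-- second moment is large -/
lemma second_lowK {l W : ℝ} {Q V : Finset ℕ} {w : ℕ → ℝ} {n : ℕ → ℕ} (hl : 0 < l) (hQV : Q ⊆ V)
    (h0 : ∀ p ∈ V, 0 ≤ w p) (h1 : ∀ p ∈ Q, 1 ≤ n p)
    (h2 : ∀ p ∈ Q, n p * l ≤ w p) (h3 : W / 2 ≤ ∑ p ∈ Q, w p) :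
    l / 2 * W ≤ ∑ v ∈ V, w v ^ 2 ∧ ∑ v ∈ Q, w v ^ 2 ≤ ∑ v ∈ V, w v ^ 2 := by
  have h4 : ∑ v ∈ Q, w v ^ 2 ≤ ∑ v ∈ V, w v ^ 2 :=
    Finset.sum_le_sum_of_subset_of_nonneg hQV (fun _ _ _ => sq_nonneg _)
  refine ⟨?_, h4⟩
  calc l / 2 * W = l * (W / 2) := by ring
    _ ≤ l * ∑ p ∈ Q, w p := mul_le_mul_of_nonneg_left h3 hl.le
    _ = ∑ p ∈ Q, l * w p := by rw [Finset.mul_sum]
    _ ≤ ∑ p ∈ Q, w p ^ 2 := by
        apply Finset.sum_le_sum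
        intro p hp
        have h5 := h2 p hp
        have h6 : (1 : ℝ) ≤ n p := by exact_mod_cast h1 p hp
        have h7 : l ≤ w p := by nlinarith
        have h8 := h0 p (hQV hp)
        nlinarith
    _ ≤ _ := h4

/-- the core of the 19/29 bound -/
theorem ku_core (hCB : ST_CB) (hCK : ST_CK) (hT2 : ST_T2r) (C₀ : ℝ) (hC₀ : 0 ≤ C₀) :
    ∃ c W₀ : ℝ, 0 < c ∧ 1 ≤ W₀ ∧ ∀ {H L Rd : ℝ} {m : ℕ} {e : ℝ}
      {V P : Finset ℕ} {w t : ℕ → ℝ} {n : ℕ → ℕ}, MSum C₀ H L Rd m e V P w t n → 0 < e →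
      W₀ ≤ ∑ v ∈ V, w v → c * (∑ v ∈ V, w v) ^ (-(19 / 29 : ℝ)) ≤ e := by
  obtain ⟨cB, hcB, hB⟩ := kfin_CB hCB
  obtain ⟨r, hr⟩ : ∃ r : ℕ, C₀ ≤ r := exists_nat_ge _
  obtain ⟨c₂, C₁, hc₂, hC₁, hT2⟩ := hT2 (C₀ + 1) r (by linarith)
  obtain ⟨l, hl⟩ : ∃ l : ℝ, l = Real.log 2 := ⟨_, rfl⟩
  have hl2 : 0 < l := by rw [hl]; exact Real.log_pos (by norm_num)
  have hl21 : l < 1 := by have := Real.log_two_lt_d9; rw [hl]; linarith
  obtain ⟨W₀, hW₀⟩ : ∃ W₀ : ℝ, W₀ = max (640 * (C₀ + 1) ^ 2)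
    ((C₀ / (cB * (l / 2) ^ (2 / 3 : ℝ))) ^ 3) := ⟨_, rfl⟩
  obtain ⟨E1, hE1⟩ : ∃ E1 : ℝ, E1 = 1 / (64 * (C₀ + 1) ^ 3 * 5184000) := ⟨_, rfl⟩
  have hC1 : 1 ≤ C₀ + 1 := by linarith
  have hE10 : 0 < E1 := by rw [hE1]; positivity
  obtain ⟨k1, hk1⟩ : ∃ k1 : ℝ, k1 = l ^ 2 / 8 * cB ^ (3 / 4 : ℝ) := ⟨_, rfl⟩
  have hk10 : 0 < k1 := by rw [hk1]; positivity
  obtain ⟨C₂, hC₂⟩ : ∃ C₂ : ℝ, C₂ = (C₀ + 1) * C₁ := ⟨_, rfl⟩
  have hC₂0 : 0 < C₂ := by rw [hC₂]; positivity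
  obtain ⟨E2, hE2⟩ : ∃ E2 : ℝ, E2 = (k1 / C₂) ^ (4 / 3 : ℝ) := ⟨_, rfl⟩
  have hE20 : 0 < E2 := by rw [hE2]; positivity
  obtain ⟨E3, hE3⟩ : ∃ E3 : ℝ, E3 = c₂ * C₂ * l ^ 2 / (144 * (160 * (C₀ + 1)) ^ 2) := ⟨_, rfl⟩
  have hE30 : 0 < E3 := by rw [hE3]; positivity
  obtain ⟨E4, hE4⟩ : ∃ E4 : ℝ,
    E4 = (c₂ * k1 * l ^ 2 / (144 * (5184000 : ℝ) ^ (2 / 3 : ℝ))) ^ (12 / 29 : ℝ) := ⟨_, rfl⟩
  have hE40 : 0 < E4 := by rw [hE4]; positivity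
  have hC1sq : 1 ≤ (C₀ + 1) ^ 2 := one_le_pow₀ hC1
  refine ⟨min (min E1 E2) (min E3 E4), W₀, lt_min (lt_min hE10 hE20) (lt_min hE30 hE40),
    by rw [hW₀]; exact le_trans (by linarith) (le_max_left _ _), ?_⟩
  intro H L Rd m e V P w t n hM he0 hWs
  obtain ⟨W, hW⟩ : ∃ W : ℝ, W = ∑ v ∈ V, w v := ⟨_, rfl⟩
  rw [← hW] at hWs ⊢
  have hWs1 : 640 * (C₀ + 1) ^ 2 ≤ W := le_trans (by rw [hW₀]; exact le_max_left _ _) hWs
  have hWs2 : (C₀ / (cB * (l / 2) ^ (2 / 3 : ℝ))) ^ 3 ≤ W :=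
    le_trans (by rw [hW₀]; exact le_max_right _ _) hWs
  have hW1 : 1 ≤ W := by linarith
  have hWpos : 0 < W := by linarith
  have hWle1 : W ^ (-(19 / 29 : ℝ)) ≤ 1 := by
    rw [Real.rpow_neg hWpos.le]
    apply inv_le_one_of_one_le₀
    exact Real.one_le_rpow hW1 (by norm_num)
  have hWp : 0 < W ^ (-(19 / 29 : ℝ)) := Real.rpow_pos_of_pos hWpos _
  by_contra hcon
  push Not at hcon
  have hce : ∀ E : ℝ, min (min E1 E2) (min E3 E4) ≤ E → e < E * W ^ (-(19 / 29 : ℝ)) :=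
    fun E hE => lt_of_lt_of_le hcon (mul_le_mul_of_nonneg_right hE hWp.le)
  have hc1 := hce E1 ((min_le_left _ _).trans (min_le_left _ _))
  have hc2 := hce E2 ((min_le_left _ _).trans (min_le_right _ _))
  have hc3 := hce E3 ((min_le_right _ _).trans (min_le_left _ _))
  have hc4 := hce E4 ((min_le_right _ _).trans (min_le_right _ _))
  have hone : ∀ E : ℝ, 0 < E → E * W ^ (-(19 / 29 : ℝ)) ≤ E := fun E hE =>
    calc E * W ^ (-(19 / 29 : ℝ)) ≤ E * 1 := mul_le_mul_of_nonneg_left hWle1 hE.le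
      _ = E := mul_one _
  -- the archimedean part
  have harch := arch_smallK hCK hC₀ hM (by rw [← hE1]; exact lt_of_lt_of_le hc1 (hone E1 hE10))
    (by rw [← hW]; exact hWs1)
  rw [← hW] at harch
  have hsub := hM.sub
  have hnn := hM.nonneg
  have hsplit : ∑ v ∈ V \ P, w v + ∑ v ∈ P, w v = W := by rw [hW]; exact Finset.sum_sdiff hsub
  -- the finite places with nonzero weight
  obtain ⟨Q, hQ⟩ : ∃ Q : Finset ℕ, Q = P.filter (fun p => w p ≠ 0) := ⟨_, rfl⟩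
  have hQsub : Q ⊆ P := by rw [hQ]; exact Finset.filter_subset _ _
  have hQV : Q ⊆ V := hQsub.trans hsub
  have hwQ : ∑ p ∈ Q, w p = ∑ p ∈ P, w p := by
    rw [hQ]; exact Finset.sum_filter_of_ne (fun p _ hp => hp)
  have hWf : W / 2 ≤ ∑ p ∈ Q, w p := by rw [hwQ]; linarith
  have hQn : ∀ p ∈ Q, 1 ≤ n p := fun p hp => hM.npos p (hQsub hp)
  have hQl : ∀ p ∈ Q, n p * l ≤ w p := fun p hp => by
    rw [hl]
    exact hM.nle p (hQsub hp) (by rw [hQ] at hp; exact (Finset.mem_filter.1 hp).2)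
  have hQ0 : ∀ p ∈ Q, 0 ≤ w p := fun p hp => hnn p (hQV hp)
  -- second moment
  obtain ⟨hD1, hD2⟩ := second_lowK (W := W) hl2 hQV hnn hQn hQl hWf
  obtain ⟨D, hD⟩ : ∃ D : ℝ, D = ∑ v ∈ V, w v ^ 2 := ⟨_, rfl⟩
  rw [← hD] at hD1 hD2
  have hDpos : 0 < D := lt_of_lt_of_le (by positivity) hD1
  obtain ⟨ρ, hρ⟩ : ∃ ρ : ℝ, ρ = D / W ^ 2 := ⟨_, rfl⟩
  have hρ0 : 0 < ρ := by rw [hρ]; positivity
  have hρlo : l / 2 / W ≤ ρ := by
    rw [hρ, div_le_div_iff₀ hWpos (by positivity)]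
    calc l / 2 * W ^ 2 = (l / 2 * W) * W := by ring
      _ ≤ D * W := mul_le_mul_of_nonneg_right hD1 hWpos.le
  have hBB := hB hC₀ hM ρ hρ0 (by rw [← hW, ← hD, hρ, div_mul_cancel₀ _ (by positivity)])
    (by rw [← hW]; exact hWpos) (by rw [← hW]; exact alg4 hl2 hWpos hC₀ hcB hWs2 hρlo)
  rw [← hW] at hBB
  -- G
  have hG := G_low hl2 hWpos hDpos hQ0 hQn hQl hWf hD2
  have hWρ : W ^ 3 / D ^ 2 = 1 / (W * ρ ^ 2) := by
    rw [hρ]; field_simp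
  rw [hWρ] at hG
  have hG2 : k1 * (W ^ (-(1 / 4) : ℝ) * e ^ (-(3 / 4) : ℝ)) ≤ ∑ p ∈ Q, w p / (n p : ℝ) ^ 2 := by
    refine le_trans ?_ hG
    rw [hk1, mul_assoc]
    exact mul_le_mul_of_nonneg_left (alg1 he0 hcB hWpos hρ0 hBB) (by positivity)
  have hG3 : C₂ ≤ ∑ p ∈ Q, w p / (n p : ℝ) ^ 2 := by
    refine le_trans (alg2 he0 hC₂0 hk10 hWpos ?_) hG2
    refine hc2.le.trans ?_
    rw [← hE2]
    exact mul_le_mul_of_nonneg_left
      (Real.rpow_le_rpow_of_exponent_le hW1 (by norm_num)) hE20.le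
  -- apply T2 with A = M / l
  obtain ⟨M, hMd⟩ : ∃ M : ℝ, M = max (160 * (C₀ + 1)) ((5184000 * e * W ^ 2) ^ (1 / 3 : ℝ)) :=
    ⟨_, rfl⟩
  have hwM : ∀ v ∈ V, w v ≤ M := fun v hv => by
    rw [hMd, hW]; exact place_leK hCK hC₀ hM hv
  have hM160 : 160 * (C₀ + 1) ≤ M := by rw [hMd]; exact le_max_left _ _
  have hM0 : 0 < M := by linarith
  have hMA : M ≤ M / l := by
    rw [le_div_iff₀ hl2]; nlinarith
  have hcase := hM.card
  have hSr : (V \ P).card ≤ r := by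
    have : ((V \ P).card : ℝ) ≤ r := hcase.trans hr
    exact_mod_cast this
  have hdis : Disjoint Q (V \ P) := by
    rw [Finset.disjoint_left]
    intro v hv hv'
    exact (Finset.mem_sdiff.1 hv').2 (hQsub hv)
  have hmain : ∀ j : ℕ, 1 ≤ j →
      ∑ v ∈ Q ∪ (V \ P), w v * B2 (j * t v) - (C₀ + 1) ≤ 144 * e * (j : ℝ) ^ 2 := by
    intro j hj
    have h5 := hM.main j hj
    have h6 : ∑ v ∈ Q ∪ (V \ P), w v * B2 (j * t v) = ∑ v ∈ V, w v * B2 (j * t v) := by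
      rw [Finset.sum_union hdis, ← Finset.sum_sdiff hsub, add_comm]
      congr 1
      rw [hQ]
      apply Finset.sum_filter_of_ne
      intro p _ hp h7
      rw [h7, zero_mul] at hp
      exact hp rfl
    rw [h6]
    linarith
  have hfin := hT2 Q (V \ P) w t n (144 * e) (M / l) hdis hSr
    (by
      intro v hv
      rcases Finset.mem_union.1 hv with h | h
      · exact hQ0 v h
      · exact hnn v (Finset.mem_sdiff.1 h).1)
    (by positivity) (by linarith) hmain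
    (fun v hv => ⟨hQn v hv, by
      rw [le_div_iff₀ hl2]
      exact (hQl v hv).trans (hwM v (hQV hv)), hM.int v (hQsub hv)⟩)
    (by
      refine le_trans ?_ hG3
      have h5 : (∑ v ∈ V \ P, w v) / (M / l) ≤ C₀ := by
        rw [div_le_iff₀ (by positivity)]
        calc ∑ v ∈ V \ P, w v ≤ ∑ _v ∈ V \ P, M :=
              Finset.sum_le_sum (fun v hv => hwM v (Finset.mem_sdiff.1 hv).1)
          _ = ((V \ P).card : ℝ) * M := by rw [Finset.sum_const, nsmul_eq_mul]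
          _ ≤ C₀ * M := mul_le_mul_of_nonneg_right hcase hM0.le
          _ ≤ C₀ * (M / l) := mul_le_mul_of_nonneg_left hMA hC₀
      rw [hC₂]
      nlinarith)
  rcases le_total (160 * (C₀ + 1)) ((5184000 * e * W ^ 2) ^ (1 / 3 : ℝ)) with hcs | hcs
  · -- main case
    have hMe : M = (5184000 * e * W ^ 2) ^ (1 / 3 : ℝ) := by rw [hMd]; exact max_eq_right hcs
    rw [hMe] at hfin
    have h5 := alg3 (l := l) (N := 5184000) he0 hc₂ hk10 hWpos hl2 (by norm_num)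
      ((mul_le_mul_of_nonneg_left hG2 hc₂.le).trans hfin)
    rw [← hE4] at h5
    linarith
  · -- M bounded: e is bounded below
    have hMe : M = 160 * (C₀ + 1) := by rw [hMd]; exact max_eq_left hcs
    have h5 : c₂ * C₂ ≤ 144 * e * (M / l) ^ 2 :=
      (mul_le_mul_of_nonneg_left hG3 hc₂.le).trans hfin
    rw [hMe, div_pow, ← mul_div_assoc, le_div_iff₀ (by positivity)] at h5
    have h6 : E3 ≤ e := by
      rw [hE3, div_le_iff₀ (by positivity)]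
      calc c₂ * C₂ * l ^ 2 ≤ 144 * e * (160 * (C₀ + 1)) ^ 2 := h5
        _ = e * (144 * (160 * (C₀ + 1)) ^ 2) := by ring
    have h7 := hone E3 hE30
    linarith

theorem st_KU (hMT : ST_KMT) (hSM : ST_KSM) (hCB : ST_CB) (hCK : ST_CK) (hT2 : ST_T2r) :
    ST_KU := by
  intro K _ _
  obtain ⟨C₀, hC₀, hMT⟩ := hMT K
  obtain ⟨c, W₀, hc, hW₀, hcore⟩ := ku_core hCB hCK hT2 C₀ hC₀
  obtain ⟨H₀, hH₀⟩ : ∃ H₀ : ℝ, H₀ = 2 * (W₀ + C₀ + 1 + 2 * C₀) := ⟨_, rfl⟩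
  obtain ⟨cs, hcs, hsmall⟩ := hSM K H₀
  have hCp : 0 < (1 + C₀) ^ (-(19 / 29 : ℝ)) := Real.rpow_pos_of_pos (by linarith) _
  refine ⟨min cs (c * (1 + C₀) ^ (-(19 / 29 : ℝ))), lt_min hcs (by positivity), ?_⟩
  intro A B hD x y e hg he
  obtain ⟨hLD0, hLR0, hLRD, -, H, hLDH, hHK, hHK2, V, P, w, t, n, hM, -⟩ := hMT A B hD x y e hg he
  have hHK0 : 0 ≤ HK A B := by linarith
  have h1HK : 1 ≤ 1 + HK A B := by linarith
  have hp1 : (1 + HK A B) ^ (-(19 / 29 : ℝ)) ≤ 1 := by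
    rw [Real.rpow_neg (by linarith)]
    apply inv_le_one_of_one_le₀
    exact Real.one_le_rpow h1HK (by norm_num)
  have hp0 : 0 < (1 + HK A B) ^ (-(19 / 29 : ℝ)) := Real.rpow_pos_of_pos (by linarith) _
  by_cases hHs : HK A B ≤ H₀
  · have h1 := hsmall A B hD hHs x y e hg he
    calc min cs (c * (1 + C₀) ^ (-(19 / 29 : ℝ))) * (1 + HK A B) ^ (-(19 / 29 : ℝ)) ≤ cs * 1 :=
          mul_le_mul (min_le_left _ _) hp1 hp0.le hcs.le
      _ = cs := mul_one _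
      _ ≤ e := h1
  push Not at hHs
  have he0 : 0 < e := by
    obtain ⟨c', hc', h'⟩ := hSM K (HK A B)
    exact lt_of_lt_of_le hc' (h' A B hD le_rfl x y e hg he)
  have htot := abs_le.1 hM.total
  have hWbig : W₀ ≤ ∑ v ∈ V, w v := by linarith
  have h2 := hcore hM he0 hWbig
  have hWpos : 0 < ∑ v ∈ V, w v := by linarith
  have hW1 : ∑ v ∈ V, w v ≤ (1 + C₀) * (1 + HK A B) := by nlinarith
  have h3 : ((1 + C₀) * (1 + HK A B)) ^ (-(19 / 29 : ℝ)) ≤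
      (∑ v ∈ V, w v) ^ (-(19 / 29 : ℝ)) :=
    Real.rpow_le_rpow_of_nonpos hWpos hW1 (by norm_num)
  rw [Real.mul_rpow (by linarith) (by linarith)] at h3
  calc min cs (c * (1 + C₀) ^ (-(19 / 29 : ℝ))) * (1 + HK A B) ^ (-(19 / 29 : ℝ))
      ≤ (c * (1 + C₀) ^ (-(19 / 29 : ℝ))) * (1 + HK A B) ^ (-(19 / 29 : ℝ)) :=
        mul_le_mul_of_nonneg_right (min_le_right _ _) hp0.le
    _ = c * ((1 + C₀) ^ (-(19 / 29 : ℝ)) * (1 + HK A B) ^ (-(19 / 29 : ℝ))) := by ring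
    _ ≤ c * (∑ v ∈ V, w v) ^ (-(19 / 29 : ℝ)) := mul_le_mul_of_nonneg_left h3 hc.le
    _ ≤ e := h2

end Pool.Agent.Helper54.LK
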