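import Pool.Agent.Helper54.LS.T2
import Pool.Agent.Helper54.LK.K4r

/-!
# T2r: all denominators at most `A`, plus at most `r` real places
-/

namespace Pool.Agent.Helper54.LS

open Real Filter Topology Pool.Agent.Helper42.LS

/-- T2r: all denominators at most `A` on `P`, plus at most `r` real places (the set `S`) -/
def ST_T2r : Prop := ∀ (C : ℝ) (r : ℕ), 0 < C → ∃ c C₁ : ℝ, 0 < c ∧ 0 < C₁ ∧
  ∀ (P S : Finset ℕ) (w t : ℕ → ℝ) (n : ℕ → ℕ) (h A : ℝ), Disjoint P S → S.card ≤ r →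
    (∀ v ∈ P ∪ S, 0 ≤ w v) → 0 ≤ h → 1 ≤ A →
    (∀ j : ℕ, 1 ≤ j → ∑ v ∈ P ∪ S, w v * B2 (j * t v) - C ≤ h * (j : ℝ) ^ 2) →
    (∀ v ∈ P, 1 ≤ n v ∧ (n v : ℝ) ≤ A ∧ ∃ a : ℤ, (n v : ℝ) * t v = a) →
    C₁ * (1 + (∑ v ∈ S, w v) / A) ≤ ∑ v ∈ P, w v / (n v : ℝ) ^ 2 →
    c * ∑ v ∈ P, w v / (n v : ℝ) ^ 2 ≤ h * A ^ 2

theorem st_T2r (hK1 : ST_K1) (hK2 : ST_K2) (hK4 : ST_K4r) : ST_T2r := by
  have hK3 := st_K3 hK1
  intro C r hC
  obtain ⟨c₁, c₂, hc₁, hc₂, hK2⟩ := hK2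
  obtain ⟨κ', C', hκ', hκ'1, hC', hK4⟩ := hK4
  set κ : ℝ := κ' ^ r with hκdef
  have hκ : 0 < κ := by positivity
  have hκ1 : κ ≤ 1 := pow_le_one₀ hκ'.le hκ'1.le
  refine ⟨c₁ * κ ^ 2 / (432 * c₂), 12 * (C + C'), by positivity, by positivity, ?_⟩
  intro V S w t n h A hdis hcard hw hh hA H hn hG
  have hA0 : (0 : ℝ) < A := by linarith
  set b : ℝ := 1 / (6 * A) with hb
  have hb0 : 0 < b := by positivity
  have hb6 : b ≤ 1 / 6 := by
    rw [hb]
    apply one_div_le_one_div_of_le (by norm_num)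
    linarith
  obtain ⟨b', hκb0, hb'b, hneg⟩ := hK4 b hb0 hb6 S t
  have hκb : κ * b ≤ b' := by
    refine le_trans ?_ hκb0
    have : κ ≤ κ' ^ S.card := pow_le_pow_of_le_one hκ'.le hκ'1.le hcard
    gcongr
  have hb'0 : 0 < b' := lt_of_lt_of_le (by positivity) hκb
  have hb'6 : b' ≤ 1 / 6 := hb'b.trans hb6
  obtain ⟨-, -, hW, hV⟩ := hK2 b' hb'0 hb'6
  set G : ℝ := ∑ v ∈ V, w v / (n v : ℝ) ^ 2 with hGdef
  have hG0 : 0 ≤ G := by
    apply Finset.sum_nonneg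
    intro v hv
    have := hw v (Finset.mem_union_left _ hv)
    positivity
  have hWpos : 0 < WW b' := lt_of_lt_of_le (by positivity) hW
  have havg := avg_ineq b' (V ∪ S) w t h C H
  rw [Finset.sum_union hdis] at havg
  have hlow : WW b' * (G / 6) ≤ ∑ v ∈ V, w v * ∑' j : ℕ, wt b' j * B2 (j * t v) := by
    rw [hGdef, Finset.sum_div, Finset.mul_sum]
    apply Finset.sum_le_sum
    intro v hv
    obtain ⟨h1, h2, h3⟩ := hn v hv
    have h4 := hK3 b' hb'0 hb'6 (n v) h1 (by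
      have h5 : 3 * b' * (n v : ℝ) ≤ 3 * b * A := by
        have : (0 : ℝ) ≤ n v := by positivity
        nlinarith
      have h6 : 3 * b * A = 1 / 2 := by rw [hb]; field_simp; norm_num
      linarith) (t v) h3
    have h5 := hw v (Finset.mem_union_left _ hv)
    calc WW b' * (w v / (n v : ℝ) ^ 2 / 6) = w v * (WW b' / (6 * (n v : ℝ) ^ 2)) := by
          have : (n v : ℝ) ≠ 0 := by positivity
          field_simp
      _ ≤ _ := mul_le_mul_of_nonneg_left h4 h5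
  set w0 : ℝ := ∑ v ∈ S, w v with hw0def
  have hw0 : 0 ≤ w0 := Finset.sum_nonneg (fun v hv => hw v (Finset.mem_union_right _ hv))
  have h1 : -(C' * b * WW b') * w0 ≤ ∑ v ∈ S, w v * ∑' j : ℕ, wt b' j * B2 (j * t v) := by
    rw [hw0def, Finset.mul_sum]
    apply Finset.sum_le_sum
    intro v hv
    have h2 := hw v (Finset.mem_union_right _ hv)
    have h3 := mul_le_mul_of_nonneg_left (hneg v hv) h2
    linarith
  have h2 : WW b' * (G / 12) ≤ h * VV b' := by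
    have h3 : C' * b * w0 + C ≤ G / 12 := by
      have h4 : C' * b * w0 ≤ C' * (w0 / A) := by
        rw [hb]
        have : 1 / (6 * A) * w0 ≤ w0 / A := by
          rw [div_mul_eq_mul_div, div_le_div_iff₀ (by positivity) hA0]
          nlinarith
        calc C' * (1 / (6 * A)) * w0 = C' * (1 / (6 * A) * w0) := by ring
          _ ≤ _ := mul_le_mul_of_nonneg_left this hC'.le
      have h5 : 0 ≤ w0 / A := by positivity
      nlinarith
    nlinarith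
  have h3 : c₁ * b' ^ 3 * (G / 12) ≤ h * (c₂ * b') := by
    calc c₁ * b' ^ 3 * (G / 12) ≤ WW b' * (G / 12) := by gcongr
      _ ≤ h * VV b' := h2
      _ ≤ h * (c₂ * b') := by gcongr
  have h4 : c₁ * b' ^ 2 * (G / 12) ≤ h * c₂ := by
    have h5 : b' * (c₁ * b' ^ 2 * (G / 12)) ≤ b' * (h * c₂) := by
      calc b' * (c₁ * b' ^ 2 * (G / 12)) = c₁ * b' ^ 3 * (G / 12) := by ring
        _ ≤ h * (c₂ * b') := h3
        _ = b' * (h * c₂) := by ring
    exact le_of_mul_le_mul_left h5 hb'0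
  have h5 : c₁ * (κ * b) ^ 2 * (G / 12) ≤ h * c₂ := by
    refine le_trans ?_ h4
    have : (κ * b) ^ 2 ≤ b' ^ 2 := pow_le_pow_left₀ (by positivity) hκb 2
    gcongr
  calc c₁ * κ ^ 2 / (432 * c₂) * G = c₁ * (κ * b) ^ 2 * (G / 12) * (A ^ 2 / c₂) := by
        rw [hb]
        field_simp
        ring
    _ ≤ h * c₂ * (A ^ 2 / c₂) := by gcongr
    _ = h * A ^ 2 := by field_simp

end Pool.Agent.Helper54.LS
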