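import Pool.Agent.Helper54.LK.AllK

open Filter Topology NumberField

namespace Pool.Agent.Helper54.LK.Unconditional

open Pool.Agent.Helper42.LK

/-- Lower bound for the canonical height of a point of infinite order on an arbitrary elliptic
curve over a number field, with the power `-19/29` of the size of the curve. -/
theorem result (K : Type) [Field K] [NumberField K] [DecidableEq K] :
    ∃ c : ℝ, 0 < c ∧ ∀ A B : K, 4 * A ^ 3 + 27 * B ^ 2 ≠ 0 →
    ∀ P : (ECK A B).toAffine.Point, (∀ n : ℕ, 0 < n → n • P ≠ 0) →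
    ∃ e : ℝ, Tendsto (fun n : ℕ => hxK (2 ^ n • P) / 4 ^ n) atTop (𝓝 e) ∧
      c * (1 + HK A B) ^ (-(19 / 29 : ℝ)) ≤ e := by
  obtain ⟨c, hc, h⟩ := Pool.Agent.Helper54.LK.kall_U K
  refine ⟨c, hc, ?_⟩
  intro A B hD P hP
  obtain ⟨x, y, e, hg, he, ht⟩ := kpts_seq A B hD P hP
  exact ⟨e, ht, h A B hD x y e hg he⟩

end Pool.Agent.Helper54.LK.Unconditional
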